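import Pool.Agent.H.MP_956d6c_ag.A

set_option autoImplicit false
open MvPolynomial Filter

namespace Pool.Agent.H.MP_956d6c_ag
variable {σ : Type} [Fintype σ]

abbrev MM (σ : Type) := RF (KK σ)
noncomputable abbrev io (σ : Type) : (KK σ) →ₐ[ℂ] (MM σ) := IsScalarTower.toAlgHom ℂ (KK σ) (MM σ)
noncomputable def rr (σ : Type) : (MM σ) := algebraMap (Polynomial (KK σ)) (MM σ) Polynomial.X
theorem rr_tr : Transcendental (KK σ) (rr σ) := RF_trans (by simp)

/-- `G (S x)` as a polynomial in `S`. -/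
noncomputable def SS {σ : Type} : (RR σ) →ₐ[ℂ] Polynomial (RR σ) := aeval fun j => Polynomial.X * Polynomial.C (X j)

theorem SS_ev {Ω : Type} [CommRing Ω] [Algebra ℂ Ω] (y : σ → Ω) (z : Ω) (G : (RR σ)) :
    Polynomial.eval₂ (aeval y : (RR σ) →ₐ[ℂ] Ω).toRingHom z (SS G) = aeval (fun j => z * y j) G := by
  induction G using MvPolynomial.induction_on with
  | C r => rw [← algebraMap_eq, AlgHom.commutes, Polynomial.algebraMap_apply, Polynomial.eval₂_C]; simp
  | add p q hp hq => rw [map_add, Polynomial.eval₂_add, hp, hq, map_add]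
  | mul_X p i hp => rw [map_mul, Polynomial.eval₂_mul, hp, map_mul]; simp [SS, mul_comm z]

theorem ev_inj {F Ω : Type} [Field F] [Field Ω] [Algebra ℂ F] [Algebra ℂ Ω] [Algebra F Ω] (θ : (KK σ) →ₐ[ℂ] F)
    [IsScalarTower ℂ F Ω] {z : Ω} (hz : Transcendental F z) {q : Polynomial (RR σ)}
    (h : Polynomial.eval₂ (aeval (fun j => algebraMap F Ω (θ ((xx σ) j))) : (RR σ) →ₐ[ℂ] Ω).toRingHom z q = 0) :
    q = 0 := by
  let j : (RR σ) →+* F := θ.toRingHom.comp (algebraMap (RR σ) (KK σ))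
  have hj : Function.Injective j := θ.injective.comp (IsFractionRing.injective _ _)
  have : (aeval (fun j => algebraMap F Ω (θ ((xx σ) j))) : (RR σ) →ₐ[ℂ] Ω).toRingHom = (algebraMap F Ω).comp j :=
    RingHom.ext fun G => by
      change _ = IsScalarTower.toAlgHom ℂ F Ω (θ (algebraMap (RR σ) (KK σ) G))
      rw [← aev_xx, map_aev, map_aev]; rfl
  rw [this, ← Polynomial.eval₂_map, ← Polynomial.aeval_def] at h
  exact (Polynomial.map_eq_zero_iff hj).mp (transcendental_iff.mp hz _ h)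

theorem homog {τ : (KK σ) →ₐ[ℂ] (MM σ)} (hτ : ∀ i, τ ((xx σ) i) = (rr σ) * (io σ) ((xx σ) i)) {L : σ → (RR σ)} {E : (RR σ)}
    (hE : E ≠ 0) {i : σ} (h : τ (rm L E (xx σ) i) = (rr σ) * (io σ) (rm L E (xx σ) i)) {Ω : Type} [CommRing Ω]
    [Algebra ℂ Ω] (y : σ → Ω) (z : Ω) :
    aeval (fun j => z * y j) (L i) * aeval y E = z * aeval y (L i) * aeval (fun j => z * y j) E := by
  have e : ∀ {Ω : Type} [CommRing Ω] [Algebra ℂ Ω] (y : σ → Ω) (z : Ω),
      Polynomial.eval₂ (aeval y : (RR σ) →ₐ[ℂ] Ω).toRingHom z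
        (SS (L i) * Polynomial.C E - Polynomial.X * Polynomial.C (L i) * SS E) =
      aeval (fun j => z * y j) (L i) * aeval y E - z * aeval y (L i) * aeval (fun j => z * y j) E := by
    intro Ω _ _ y z
    simp only [Polynomial.eval₂_sub, Polynomial.eval₂_mul, SS_ev, Polynomial.eval₂_C, Polynomial.eval₂_X]
    rfl
  rw [← sub_eq_zero, ← e, ev_inj (AlgHom.id ℂ (KK σ)) rr_tr
    (q := SS (L i) * Polynomial.C E - Polynomial.X * Polynomial.C (L i) * SS E), Polynomial.eval₂_zero]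
  rw [e, sub_eq_zero]
  rw [map_rm, map_rm, rm, rm] at h
  have h1 := aev_ne τ hE
  have h2 := aev_ne (io σ) hE
  simp only [hτ] at h h1
  rw [← mul_div_assoc, div_eq_div_iff h1 h2] at h
  exact h

theorem rr_ne : ((rr σ) : (MM σ)) ≠ 0 := fun h => rr_tr (h ▸ isAlgebraic_zero)

theorem rf_lift (θ : (KK σ) →ₐ[ℂ] (KK σ)) : ∃ Θ : (MM σ) →ₐ[ℂ] (MM σ), Θ (rr σ) = (rr σ) ∧ ∀ f, Θ ((io σ) f) = (io σ) (θ f) := by
  let g : Polynomial (KK σ) →ₐ[ℂ] (MM σ) := (IsScalarTower.toAlgHom ℂ (Polynomial (KK σ)) (MM σ)).comp (Polynomial.mapAlgHom θ)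
  have hg : Function.Injective g :=
    (IsFractionRing.injective (Polynomial (KK σ)) (MM σ)).comp (Polynomial.map_injective _ θ.injective)
  refine ⟨IsFractionRing.liftAlgHom hg, ?_, fun f => ?_⟩
  · rw [IsFractionRing.liftAlgHom_apply, rr, IsFractionRing.lift_algebraMap]
    simp [g]
  · rw [IsFractionRing.liftAlgHom_apply, show (io σ) f = algebraMap (Polynomial (KK σ)) (MM σ) (Polynomial.C f) from rfl,
      IsFractionRing.lift_algebraMap]
    simp [g]; rfl

end Pool.Agent.H.MP_956d6c_ag
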