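import Pool.Agent.H.MP_956d6c_ag.B

set_option autoImplicit false
open MvPolynomial Filter Topology

namespace Pool.Agent.H.MP_956d6c_ag
variable {σ : Type} [Fintype σ]

theorem lim_coeff (k : ℕ) (c : ℂ) : ∀ A : Polynomial ℂ,
    Tendsto (fun z => A.eval z / z ^ k) (𝓝[≠] 0) (𝓝 c) → (∀ j < k, A.coeff j = 0) ∧ A.coeff k = c := by
  have h0 : ∀ (A : Polynomial ℂ) c, Tendsto (fun z => A.eval z) (𝓝[≠] 0) (𝓝 c) → A.coeff 0 = c := fun A c h => by
    rw [Polynomial.coeff_zero_eq_eval_zero]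
    exact tendsto_nhds_unique (A.continuous.continuousAt.tendsto.mono_left nhdsWithin_le_nhds) h
  induction k with
  | zero => exact fun A h => ⟨by simp, h0 A c (by simpa using h)⟩
  | succ k ih =>
    intro A h
    have h1 : A.coeff 0 = 0 := by
      refine h0 A 0 ?_
      have : Tendsto (fun z : ℂ => z ^ (k + 1)) (𝓝[≠] 0) (𝓝 0) := by
        simpa using ((continuous_pow (k + 1)).tendsto (0 : ℂ)).mono_left nhdsWithin_le_nhds
      refine (by simpa using h.mul this : Tendsto (fun z => A.eval z / z ^ (k + 1) * z ^ (k + 1)) _ _).congr' ?_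
      filter_upwards [self_mem_nhdsWithin] with z hz using div_mul_cancel₀ _ (pow_ne_zero _ hz)
    obtain ⟨B, rfl⟩ := Polynomial.X_dvd_iff.mpr h1
    obtain ⟨h2, h3⟩ := ih B (h.congr' (by
      filter_upwards [self_mem_nhdsWithin] with z hz
      have : z ≠ 0 := hz
      simp only [Polynomial.eval_mul, Polynomial.eval_X]; field_simp; ring))
    refine ⟨fun j hj => ?_, by simpa using h3⟩
    rcases j with _ | j
    · exact h1
    · simpa using h2 j (by omega)

theorem SS_one (G : (RR σ)) : (SS G).eval 1 = G := by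
  have := SS_ev (Ω := (RR σ)) X 1 G
  simp only [one_mul, aeval_X_left] at this
  exact this

theorem SS_eval (p : σ → ℂ) (z : ℂ) (G : (RR σ)) : ((SS G).map (eval p)).eval z = eval (z • p) G := by
  rw [Polynomial.eval_map]; exact SS_ev p z G

theorem bdry0 {P : σ → (RR σ)} {Q : (RR σ)} (hQ : Q ≠ 0) {U : Set (σ → ℂ)} (hU : IsOpen U) (hne : U.Nonempty)
    (h : ∀ x ∈ U, Tendsto (fun z : ℂ => z⁻¹ • fun i => eval (z • x) (P i) / eval (z • x) Q) (𝓝[≠] 0) (𝓝 x)) :
    ∃ (e : ℕ) (Q1 : Polynomial (RR σ)), SS Q = Polynomial.X ^ e * Q1 ∧ Q1.coeff 0 ≠ 0 ∧ ∀ i, ∃ A : Polynomial (RR σ),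
      SS (P i) = Polynomial.X ^ (e + 1) * A ∧ A.coeff 0 = X i * Q1.coeff 0 := by
  obtain ⟨Q1, h1, h2⟩ := Polynomial.exists_eq_pow_rootMultiplicity_mul_and_not_dvd (SS Q)
    (fun h => hQ (by rw [← SS_one Q, h, Polynomial.eval_zero])) 0
  generalize (SS Q).rootMultiplicity 0 = e at h1
  rw [map_zero, sub_zero] at h1 h2
  rw [Polynomial.X_dvd_iff] at h2
  refine ⟨e, Q1, h1, h2, fun i => ?_⟩
  let V := U ∩ {p | eval p (Q1.coeff 0) ≠ 0}
  have hV : IsOpen V := hU.inter (isOpen_ne_fun (MvPolynomial.continuous_eval _) continuous_const)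
  have hV' : V.Nonempty := by
    by_contra h
    exact h2 (zero_of_open hU hne fun p hp => by_contra fun h' => h ⟨p, hp, h'⟩)
  have key : ∀ p ∈ V, _ := fun p hp => lim_coeff (e + 1) (p i * eval p (Q1.coeff 0)) ((SS (P i)).map (eval p)) (by
    have c : Tendsto (fun z => (Q1.map (eval p)).eval z) (𝓝[≠] 0) (𝓝 (eval p (Q1.coeff 0))) := by
      have := (Q1.map (eval p)).continuous.tendsto 0
      rw [← Polynomial.coeff_zero_eq_eval_zero, Polynomial.coeff_map] at this
      exact this.mono_left nhdsWithin_le_nhds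
    refine ((tendsto_pi_nhds.mp (h p hp.1) i).mul c).congr' ?_
    filter_upwards [self_mem_nhdsWithin, c.eventually_ne hp.2] with z hz h3
    have : z ≠ 0 := hz
    simp only [Pi.smul_apply, smul_eq_mul, ← SS_eval, h1, Polynomial.map_mul, Polynomial.eval_mul,
      Polynomial.map_pow, Polynomial.map_X, Polynomial.eval_pow, Polynomial.eval_X]
    field_simp; ring)
  obtain ⟨A, hA⟩ := Polynomial.X_pow_dvd_iff.mpr fun j hj =>
    zero_of_open hV hV' fun p hp => by simpa using (key p hp).1 j hj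
  refine ⟨A, hA, sub_eq_zero.mp (zero_of_open hV hV' fun p hp => ?_)⟩
  have := (key p hp).2
  rw [Polynomial.coeff_map, hA, Polynomial.coeff_X_pow_mul'] at this
  simpa [sub_eq_zero] using this

/-- Evaluation of a polynomial over `(KK σ)`. -/
noncomputable abbrev ev {Ω : Type} [Field Ω] [Algebra ℂ Ω] (θ : (KK σ) →ₐ[ℂ] Ω) (u : Ω) (q : Polynomial (KK σ)) : Ω :=
  Polynomial.eval₂ (θ : (KK σ) →+* Ω) u q

/-- Reduced numerators and denominators of the flow. -/
structure Nd (P : σ → (RR σ)) (Q : (RR σ)) (a b : σ → Polynomial (KK σ)) : Prop where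
  cop : ∀ i, IsCoprime (a i) (b i)
  mon : ∀ i, (b i).Monic
  b0 : ∀ i, (b i).coeff 0 ≠ 0
  a0 : ∀ i, (a i).coeff 0 = (xx σ) i * (b i).coeff 0
  nt : (∀ i, (a i).natDegree = 0 ∧ (b i).natDegree = 0) → ∀ i, P i = X i * Q
  rho : ∀ (Ω : Type) [Field Ω] [Algebra ℂ Ω] (θ : (KK σ) →ₐ[ℂ] Ω) (u : Ω), (∀ q, ev θ u q = 0 → q = 0) → ∀ i,
    ev θ u (a i) / ev θ u (b i) = u⁻¹ * rm P Q (fun j => u * θ ((xx σ) j)) i

theorem bdry {P : σ → (RR σ)} {Q : (RR σ)} (hQ : Q ≠ 0) {U : Set (σ → ℂ)} (hU : IsOpen U) (hne : U.Nonempty)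
    (h : ∀ x ∈ U, Tendsto (fun z : ℂ => z⁻¹ • fun i => eval (z • x) (P i) / eval (z • x) Q) (𝓝[≠] 0) (𝓝 x)) :
    ∃ a b, Nd P Q a b := by
  obtain ⟨e, Q1, h1, h2, h3⟩ := bdry0 hQ hU hne h
  choose A hA hA' using h3
  let j := algebraMap (RR σ) (KK σ)
  have hj : Function.Injective j := IsFractionRing.injective _ _
  have q0 : (Q1.map j).coeff 0 ≠ 0 := by rwa [Polynomial.coeff_map, map_ne_zero_iff _ hj]
  have q1 : Q1.map j ≠ 0 := fun h => q0 (by simp [h])
  let f : σ → RatFunc (KK σ) := fun i => algebraMap _ _ ((A i).map j) / algebraMap _ _ (Q1.map j)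
  have e1 : ∀ i, (f i).num * Q1.map j = (A i).map j * (f i).denom := fun i =>
    (RatFunc.num_mul_eq_mul_denom_iff q1).mpr rfl
  have e2 : ∀ i, (f i).num.coeff 0 = (xx σ) i * (f i).denom.coeff 0 := fun i => by
    have := congrArg (Polynomial.coeff · 0) (e1 i)
    simp only [Polynomial.mul_coeff_zero, Polynomial.coeff_map (f := j) (p := A i), hA', map_mul] at this
    rw [← Polynomial.coeff_map] at this
    refine mul_right_cancel₀ q0 (this.trans ?_)
    rw [mul_right_comm]; rfl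
  refine ⟨fun i => (f i).num, fun i => (f i).denom, fun i => (f i).isCoprime_num_denom,
    fun i => (f i).monic_denom, fun i h => q0 ?_, e2, fun h i => ?_, fun Ω _ _ θ u hu i => ?_⟩
  · obtain ⟨c, hc⟩ := RatFunc.denom_div_dvd ((A i).map j) (Q1.map j)
    rw [hc, Polynomial.mul_coeff_zero, h, zero_mul]
  · have b1 : (f i).denom = 1 := (f i).monic_denom.natDegree_eq_zero.mp (h i).2
    have a1 := Polynomial.eq_C_of_natDegree_eq_zero (h i).1
    have := e1 i
    rw [a1, e2, b1, Polynomial.coeff_one_zero, mul_one, mul_one] at this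
    have h4 : Polynomial.C (X i) * Q1 = A i := Polynomial.map_injective j hj (by
      rw [← this, Polynomial.map_mul, Polynomial.map_C]; rfl)
    rw [← SS_one (P i), ← SS_one Q, hA, h1, ← h4]; simp
  · have e3 : ∀ q : Polynomial (RR σ), ev θ u (q.map j) =
        Polynomial.eval₂ (aeval (fun j => θ ((xx σ) j)) : (RR σ) →ₐ[ℂ] Ω).toRingHom u q := fun q => by
      rw [ev, Polynomial.eval₂_map]
      congr 1
      exact RingHom.ext fun G => by
        change θ (algebraMap (RR σ) (KK σ) G) = aeval _ G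
        rw [← aev_xx, map_aev]
    have u0 : u ≠ 0 := fun h => Polynomial.X_ne_zero (hu Polynomial.X (by simp [h]))
    have n1 := mt (hu _) q1
    have n2 := mt (hu _) (f i).denom_ne_zero
    have e4 := congrArg (ev θ u) (e1 i)
    simp only [ev, Polynomial.eval₂_mul] at e4
    rw [rm, ← SS_ev, ← SS_ev, hA, h1, Polynomial.eval₂_mul, Polynomial.eval₂_mul,
      Polynomial.eval₂_X_pow, Polynomial.eval₂_X_pow, ← e3, ← e3]
    rw [pow_succ', mul_assoc u, mul_div_assoc, inv_mul_cancel_left₀ u0, mul_div_mul_left _ _ (pow_ne_zero _ u0),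
      div_eq_div_iff n2 n1]
    exact e4

theorem spec {A F F' : Type} [CommRing A] [Field F] [Field F'] [Algebra ℂ A] [Algebra ℂ F] [Algebra ℂ F']
    (j : A →ₐ[ℂ] F) (hj : Function.Injective j) (κ : A →ₐ[ℂ] F') :
    ∃ (O : Subalgebra ℂ F) (k : O →ₐ[ℂ] F'), ∀ a b, κ b ≠ 0 → ∃ h : j a / j b ∈ O, k ⟨_, h⟩ = κ a / κ b := by
  haveI := RingHom.ker_isPrime κ
  haveI := hj.isDomain j.toRingHom
  let W := (RingHom.ker κ).primeCompl
  have hW : ∀ y : W, y.1 ≠ 0 := fun y h => y.2 (h ▸ zero_mem _)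
  let j1 : Localization W →ₐ[ℂ] F := IsLocalization.liftAlgHom (M := W) (f := j) fun y =>
    IsUnit.mk0 _ ((map_ne_zero_iff _ hj).mpr (hW y))
  let k1 : Localization W →ₐ[ℂ] F' := IsLocalization.liftAlgHom (M := W) (f := κ) fun y => IsUnit.mk0 _ y.2
  have h1 : Function.Injective j1 := (IsLocalization.lift_injective_iff _).mpr fun x y =>
    ((IsLocalization.injective _ (le_nonZeroDivisors_of_noZeroDivisors fun h => hW ⟨0, h⟩ rfl)).eq_iff).trans
      hj.eq_iff.symm
  refine ⟨j1.range, k1.comp (AlgEquiv.ofInjective j1 h1).symm, fun a b hb => ?_⟩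
  have e1 : j1 (IsLocalization.mk' _ a (⟨b, hb⟩ : W)) = j a / j b := by
    rw [eq_div_iff ((map_ne_zero_iff _ hj).mpr (hW ⟨b, hb⟩)), mul_comm]
    exact ((IsLocalization.lift_mk'_spec _ _ _ _).mp rfl).symm
  refine ⟨⟨_, e1⟩, ?_⟩
  have : (AlgEquiv.ofInjective j1 h1).symm ⟨_, ⟨_, e1⟩⟩ = IsLocalization.mk' _ a (⟨b, hb⟩ : W) :=
    (AlgEquiv.symm_apply_eq _).mpr (Subtype.ext e1.symm)
  change k1 ((AlgEquiv.ofInjective j1 h1).symm _) = _
  rw [this, eq_div_iff hb, mul_comm]
  exact ((IsLocalization.lift_mk'_spec (M := W) (S := Localization W) _ _ _ (⟨b, hb⟩ : W)).mp rfl).symm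

theorem ev_io (q : Polynomial (KK σ)) : ev (io σ) (rr σ) q = algebraMap _ (MM σ) q := by
  have : Polynomial.eval₂RingHom ((io σ) : (KK σ) →+* (MM σ)) (rr σ) = algebraMap _ (MM σ) :=
    Polynomial.ringHom_ext (fun a => by simp; rfl) (by simp [rr])
  exact DFunLike.congr_fun this q

theorem ex_s {P : σ → (RR σ)} {Q : (RR σ)} {a b : σ → Polynomial (KK σ)} (h : Nd P Q a b) :
    ∃ s : (KK σ) →ₐ[ℂ] (MM σ), ∀ i, s ((xx σ) i) = (rr σ)⁻¹ * rm P Q (fun j => (rr σ) * (io σ) ((xx σ) j)) i := by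
  refine lift_hom _ ((injective_iff_map_eq_zero _).mpr fun G hG => ?_)
  obtain ⟨O, k, hk⟩ := spec (IsScalarTower.toAlgHom ℂ (Polynomial (KK σ)) (MM σ)) (IsFractionRing.injective _ _)
    ((Polynomial.aeval (0 : (KK σ))).restrictScalars ℂ)
  have e0 : ∀ q : Polynomial (KK σ), (Polynomial.aeval (0 : (KK σ))).restrictScalars ℂ q = q.coeff 0 := fun q => by
    simp [Polynomial.coeff_zero_eq_eval_zero]
  choose h1 h2 using fun i => hk (a i) (b i) (by rw [e0]; exact h.b0 i)
  have h3 : aeval (fun i => (⟨_, h1 i⟩ : O)) G = 0 := by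
    refine Subtype.ext ?_
    change O.val _ = 0
    rw [← hG, ← AlgHom.comp_apply, comp_aeval]
    congr 2
    funext i
    rw [← h.rho (MM σ) (io σ) (rr σ) fun q hq => (map_eq_zero_iff _ (IsFractionRing.injective _ _)).mp (ev_io q ▸ hq),
      ev_io, ev_io]; rfl
  have h4 := congrArg k h3
  rw [← AlgHom.comp_apply, comp_aeval, map_zero] at h4
  simp only [h2, e0, h.a0, mul_div_cancel_right₀ _ (h.b0 _)] at h4
  exact xx_ind (h4.trans (map_zero _).symm)

theorem ex_tau : ∃ τ : (KK σ) →ₐ[ℂ] (MM σ), ∀ i, τ ((xx σ) i) = (rr σ) * (io σ) ((xx σ) i) := by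
  refine lift_hom _ ((injective_iff_map_eq_zero _).mpr fun G hG => ?_)
  rw [← SS_one G, ev_inj (AlgHom.id ℂ (KK σ)) rr_tr (q := SS G) ((SS_ev _ _ G).trans hG), Polynomial.eval_zero]

theorem ind_opt {F ι : Type} [Field F] [Algebra ℂ F] {v : ι → F} (h : AlgebraicIndependent ℂ v) :
    AlgebraicIndependent ℂ fun o : Option ι => o.elim (algebraMap (Polynomial F) (RF F) Polynomial.X)
      fun i => algebraMap F (RF F) (v i) := by
  let c := IsScalarTower.toAlgHom ℂ F (RF F)
  refine AlgebraicIndependent.option_iff.mpr ⟨h.map' (f := c) c.injective, fun ⟨q, h1, h2⟩ => ?_⟩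
  have hle : Algebra.adjoin ℂ (Set.range fun i => algebraMap F (RF F) (v i)) ≤ c.range :=
    Algebra.adjoin_le (by rintro _ ⟨i, rfl⟩; exact ⟨_, rfl⟩)
  let g := (AlgEquiv.ofInjective c c.injective).symm.toAlgHom.comp (Subalgebra.inclusion hle)
  have hg : ∀ y, algebraMap F (RF F) (g y) = y := fun y =>
    congrArg Subtype.val ((AlgEquiv.ofInjective c c.injective).apply_symm_apply (Subalgebra.inclusion hle y))
  refine RF_trans (q := Polynomial.X) (by simp) ⟨q.map g.toRingHom, ?_, ?_⟩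
  · exact (Polynomial.map_ne_zero_iff fun y y' e => Subtype.ext (by rw [← hg, ← hg]; exact congrArg _ e)).mpr h1
  · rw [← h2, Polynomial.aeval_def, Polynomial.eval₂_map, Polynomial.aeval_def]
    congr 1
    exact RingHom.ext hg

theorem transl {P : σ → (RR σ)} {Q : (RR σ)} {Φ : (σ → ℂ) → (σ → ℂ)}
    (hΦ : ∀ p : σ → ℂ, Φ p = fun i => eval p (P i) / eval p Q) {V : Set ((σ → ℂ) × ℂ)} (hV : IsOpen V)
    (hne : V.Nonempty) (h : ∀ q ∈ V, q.2 ≠ 0 ∧ (1 - q.2) • Φ q.1 = Φ (((1 - q.2) / q.2) • Φ (q.2 • q.1)))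
    {Ω : Type} [Field Ω] [Algebra ℂ Ω] {v : Option (Option σ) → Ω} (hv : AlgebraicIndependent ℂ v)
    (i : σ) : v none * ((v none + v (some none))⁻¹ *
        rm P Q (fun j => (v none + v (some none)) * v (some (some j))) i) =
      rm P Q (fun j => v none * ((v (some none))⁻¹ *
        rm P Q (fun k => v (some none) * v (some (some k))) j)) i := by
  obtain ⟨θ, hθ⟩ := lift_hom v hv
  simp only [← hθ, ← map_add, ← map_mul, ← map_inv₀, ← map_rm]
  congr 1
  have S := Rp.x (σ := Option (Option σ)) none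
  have R := Rp.x (σ := Option (Option σ)) (some none)
  let m : (Option (Option σ) → ℂ) → (σ → ℂ) × ℂ := fun p =>
    (fun j => (p none + p (some none)) * p (some (some j)), p (some none) / (p none + p (some none)))
  refine (S.mul ((S.add R).inv.mul (Rp.rm (fun j => (S.add R).mul (Rp.x _)) P Q i))).eq_of_open
    (Rp.rm (fun j => S.mul (R.inv.mul (Rp.rm (fun k => R.mul (Rp.x _)) P Q j))) P Q i)
    (V := {p | p none + p (some none) ≠ 0} ∩ m ⁻¹' V) ?_ ?_ ?_
  · refine ContinuousOn.isOpen_inter_preimage ?_ (isOpen_ne_fun (by fun_prop) continuous_const) hV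
    exact ContinuousOn.prodMk (by fun_prop) (ContinuousOn.div (by fun_prop) (by fun_prop) fun p hp => hp)
  · obtain ⟨q, hq⟩ := hne
    exact ⟨fun o => o.elim (1 - q.2) fun o => o.elim q.2 q.1, by simp, by simpa [m] using hq⟩
  · rintro p ⟨h1, h2⟩
    obtain ⟨h3, h4⟩ := h _ h2
    have h1 : p none + p (some none) ≠ 0 := h1
    have h5 : p (some none) ≠ 0 := fun h => h3 (by simp [m, h])
    have e1 : (m p).2 • (m p).1 = fun k => p (some none) * p (some (some k)) := by
      funext k; simp only [m, Pi.smul_apply, smul_eq_mul]; field_simp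
    have e2 : (1 - (m p).2) / (m p).2 = p none * (p (some none))⁻¹ := by simp only [m]; field_simp; ring
    have e3 : 1 - (m p).2 = p none * (p none + p (some none))⁻¹ := by simp only [m]; field_simp; ring
    rw [e1, e2, e3] at h4
    have := congrFun h4 i
    simp only [hΦ, Pi.smul_apply, smul_eq_mul, mul_assoc] at this
    convert this using 4 <;> (funext j; simp [mul_assoc])

end Pool.Agent.H.MP_956d6c_ag
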