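import Pool.Agent.H.MP_956d6c_ag.C

set_option autoImplicit false
open Polynomial

namespace Pool.Agent.H.MP_956d6c_ag
variable {σ : Type} [Fintype σ]

theorem cmp {F : Type} [Field F] {a1 b1 a2 b2 : F[X]} (c1 : IsCoprime a1 b1) (c2 : IsCoprime a2 b2)
    (m1 : b1.Monic) (m2 : b2.Monic)
    (h : algebraMap _ (RF F) a1 / algebraMap _ _ b1 = algebraMap _ _ a2 / algebraMap _ _ b2) :
    a1 = a2 ∧ b1 = b2 := by
  have hi := IsFractionRing.injective F[X] (RF F)
  rw [div_eq_div_iff ((map_ne_zero_iff _ hi).mpr m1.ne_zero) ((map_ne_zero_iff _ hi).mpr m2.ne_zero),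
    ← map_mul, ← map_mul, hi.eq_iff] at h
  have : b1 = b2 := eq_of_monic_of_associated m1 m2 (associated_of_dvd_dvd
    (c1.symm.dvd_of_dvd_mul_left ⟨a2, h.trans (mul_comm _ _)⟩)
    (c2.symm.dvd_of_dvd_mul_left ⟨a1, h.symm.trans (mul_comm _ _)⟩))
  subst this
  exact ⟨mul_right_cancel₀ m1.ne_zero h, rfl⟩

noncomputable abbrev cc (σ : Type) : (MM σ) →ₐ[ℂ] RF (MM σ) := IsScalarTower.toAlgHom ℂ (MM σ) (RF (MM σ))

theorem ev_RF (θ : (KK σ) →ₐ[ℂ] (MM σ)) (q0 : (MM σ)[X]) (p : (KK σ)[X]) :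
    ev ((cc σ).comp θ) (algebraMap _ _ q0) p = algebraMap _ (RF (MM σ)) ((p.map (θ : (KK σ) →+* (MM σ))).comp q0) := by
  rw [comp, eval₂_map, hom_eval₂]; rfl

theorem ev_RF0 (θ : (KK σ) →ₐ[ℂ] (MM σ)) {q0 : (MM σ)[X]} (h : q0.natDegree ≠ 0) (p : (KK σ)[X])
    (e : ev ((cc σ).comp θ) (algebraMap _ _ q0) p = 0) : p = 0 := by
  rw [ev_RF, map_eq_zero_iff _ (IsFractionRing.injective _ _), comp_eq_zero_iff] at e
  rcases e with e | ⟨-, e⟩
  · exact (Polynomial.map_eq_zero_iff θ.injective).mp e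
  · rw [e] at h; simp at h

/-- Behaviour of a polynomial under the flow and under scaling. -/
structure Sm (s τ : (KK σ) →ₐ[ℂ] (MM σ)) (p : (KK σ)[X]) (d : ℤ) : Prop where
  T : p.map (s : (KK σ) →+* (MM σ)) = (p.map ((io σ) : (KK σ) →+* (MM σ))).comp (X + C (rr σ))
  S : p.map (τ : (KK σ) →+* (MM σ)) = C ((rr σ) ^ d) * (p.map ((io σ) : (KK σ) →+* (MM σ))).comp (C (rr σ) * X)

theorem sm_of {P : σ → (RR σ)} {Q : (RR σ)} {a b : σ → (KK σ)[X]} (h : Nd P Q a b) {s τ : (KK σ) →ₐ[ℂ] (MM σ)}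
    (hτ : ∀ i, τ ((xx σ) i) = (rr σ) * (io σ) ((xx σ) i)) (hs : ∀ i, s ((xx σ) i) = (rr σ)⁻¹ * rm P Q (fun j => (rr σ) * (io σ) ((xx σ) j)) i)
    (ht : ∀ v : Option (Option σ) → RF (MM σ), AlgebraicIndependent ℂ v → ∀ i,
      v none * ((v none + v (some none))⁻¹ *
        rm P Q (fun j => (v none + v (some none)) * v (some (some j))) i) =
      rm P Q (fun j => v none * ((v (some none))⁻¹ *
        rm P Q (fun k => v (some none) * v (some (some k))) j)) i) (i : σ) :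
    Sm s τ (a i) (1 - (b i).natDegree) ∧ Sm s τ (b i) (-(b i).natDegree) := by
  have hr := rr_ne (σ := σ)
  have cop : ∀ (θ : (KK σ) →ₐ[ℂ] (MM σ)) q, IsCoprime (((a i).map (θ : (KK σ) →+* (MM σ))).comp q)
      (((b i).map (θ : (KK σ) →+* (MM σ))).comp q) := fun θ q =>
    (h.cop i).map ((compRingHom q).comp (mapRingHom (θ : (KK σ) →+* (MM σ))))
  have rho := fun (θ : (KK σ) →ₐ[ℂ] (MM σ)) (q : (MM σ)[X]) (hq : q.natDegree ≠ 0) =>
    h.rho _ ((cc σ).comp θ) _ (ev_RF0 θ hq) i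
  simp only [ev_RF, AlgHom.comp_apply] at rho
  have S0 : algebraMap (MM σ)[X] (RF (MM σ)) X ≠ 0 := (map_ne_zero_iff _ (IsFractionRing.injective _ _)).mpr X_ne_zero
  have hC : ∀ c, algebraMap (MM σ)[X] (RF (MM σ)) (C c) = (cc σ) c := fun _ => rfl
  have R0 : (cc σ) (rr σ) ≠ 0 := (_root_.map_ne_zero _).mpr hr
  have T := cmp (cop s X) (cop (io σ) (X + C (rr σ))) (by rw [comp_X]; exact (h.mon i).map _)
    (((h.mon i).map _).comp_X_add_C _) (by
      rw [rho _ _ (by simp), rho _ _ (by simp), map_add, hC]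
      have := ht _ (ind_opt (ind_opt xx_ind)) i
      simp only [Option.elim] at this
      simp only [hs, map_mul, map_inv₀, map_rm]
      exact (inv_mul_eq_iff_eq_mul₀ S0).mpr this.symm)
  have u1 : ∀ d : ℤ, IsUnit (C ((rr σ) ^ d) : (MM σ)[X]) := fun d => isUnit_C.mpr (IsUnit.mk0 _ (zpow_ne_zero _ hr))
  have S := cmp (cop τ X) (a2 := C ((rr σ) ^ (1 - (b i).natDegree : ℤ)) * _) (b2 := C ((rr σ) ^ (-(b i).natDegree : ℤ)) * _)
    (((isCoprime_mul_units_left (u1 _) (u1 _) _ _)).mpr (cop (io σ) (C (rr σ) * X))) (by rw [comp_X]; exact (h.mon i).map _)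
    (by
      rw [Monic, leadingCoeff_mul, leadingCoeff_C, leadingCoeff_comp (by simp [hr]), ((h.mon i).map _).leadingCoeff,
        leadingCoeff_C_mul_X, natDegree_map]
      simp [hr]) (by
      rw [map_mul, map_mul, mul_div_mul_comm, rho _ _ (by simp), rho _ _ (by simp [hr]), map_mul, hC, hC, hC,
        ← map_div₀, ← zpow_sub₀ hr]
      simp only [hτ, map_mul, sub_neg_eq_add, sub_add_cancel, zpow_one, mul_left_comm (algebraMap (MM σ)[X] (RF (MM σ)) X),
        mul_assoc]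
      field_simp)
  simp only [comp_X] at T S
  exact ⟨⟨T.1, S.1⟩, T.2, S.2⟩

theorem sh {F : Type} [Field F] {p : F[X]} {k : ℕ} (h : p.natDegree ≤ k + 1) (r : F) :
    (p.comp (X + C r)).coeff (k + 1) = p.coeff (k + 1) ∧
      (p.comp (X + C r)).coeff k = p.coeff k + (k + 1) * p.coeff (k + 1) * r := by
  rw [← taylor_apply, taylor_coeff, taylor_coeff,
    eq_C_of_natDegree_le_zero ((natDegree_hasseDeriv_le p (k + 1)).trans (by omega)),
    eq_X_add_C_of_natDegree_le_one ((natDegree_hasseDeriv_le p k).trans (by omega))]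
  simp [hasseDeriv_coeff, add_comm 1 k, add_comm]

variable {s τ : (KK σ) →ₐ[ℂ] (MM σ)}

theorem Sm.coef {p : (KK σ)[X]} {d : ℤ} (h : Sm s τ p d) (j : ℕ) : τ (p.coeff j) = (rr σ) ^ (d + j) * (io σ) (p.coeff j) := by
  have := congrArg (coeff · j) h.S
  simp only [coeff_map, coeff_C_mul, comp_C_mul_X_coeff, RingHom.coe_coe] at this
  rw [this, zpow_add₀ rr_ne, zpow_natCast]; ring

theorem Sm.slice {p : (KK σ)[X]} {d : ℤ} (h : Sm s τ p d) (hp : p.natDegree ≠ 0) :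
    ∃ t, s t = (io σ) t + (rr σ) ∧ τ t = (rr σ)⁻¹ * (io σ) t := by
  obtain ⟨k, hk⟩ := Nat.exists_eq_succ_of_ne_zero hp
  have h0 : p.coeff (k + 1) ≠ 0 := by
    rw [← show p.natDegree = k + 1 from hk]
    exact leadingCoeff_ne_zero.mpr (by rintro rfl; simp at hp)
  have h1 := sh (p := p.map ((io σ) : (KK σ) →+* (MM σ))) (k := k) (by rw [natDegree_map]; omega) (rr σ)
  rw [← h.T] at h1
  simp only [coeff_map, RingHom.coe_coe] at h1
  have h2 : (io σ) (p.coeff (k + 1)) ≠ 0 := (_root_.map_ne_zero _).mpr h0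
  haveI : CharZero (MM σ) := charZero_of_injective_algebraMap (algebraMap ℂ (MM σ)).injective
  have h3 : (k + 1 : (MM σ)) ≠ 0 := by exact_mod_cast k.succ_ne_zero
  have hr := rr_ne (σ := σ)
  have h4 := zpow_ne_zero (d + k) hr
  refine ⟨p.coeff k / ((k + 1) * p.coeff (k + 1)), ?_, ?_⟩
  · simp only [map_div₀, map_mul, map_add, map_natCast, map_one, h1.1, h1.2]; field_simp
  · simp only [map_div₀, map_mul, map_add, map_natCast, map_one, h.coef, Nat.cast_add, Nat.cast_one,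
      ← add_assoc, zpow_add_one₀ hr]
    field_simp

theorem Sm.shift {p : (KK σ)[X]} {d : ℤ} (h : Sm s τ p d) {t : (KK σ)} (h1 : s t = (io σ) t + (rr σ)) (h2 : τ t = (rr σ)⁻¹ * (io σ) t)
    (j : ℕ) : s ((p.comp (X - C t)).coeff j) = (io σ) ((p.comp (X - C t)).coeff j) ∧
      τ ((p.comp (X - C t)).coeff j) = (rr σ) ^ (d + j) * (io σ) ((p.comp (X - C t)).coeff j) := by
  constructor
  · have : (p.comp (X - C t)).map (s : (KK σ) →+* (MM σ)) = (p.comp (X - C t)).map ((io σ) : (KK σ) →+* (MM σ)) := by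
      rw [map_comp, map_comp, h.T, comp_assoc]
      congr 1
      simp only [Polynomial.map_sub, map_X, map_C, RingHom.coe_coe, h1, add_comp, X_comp, C_comp, map_add]
      ring
    simpa only [coeff_map, RingHom.coe_coe] using congrArg (coeff · j) this
  · have : (p.comp (X - C t)).map (τ : (KK σ) →+* (MM σ)) =
        C ((rr σ) ^ d) * ((p.comp (X - C t)).map ((io σ) : (KK σ) →+* (MM σ))).comp (C (rr σ) * X) := by
      rw [map_comp, map_comp, h.S, mul_comp, C_comp, comp_assoc, comp_assoc]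
      congr 2
      simp only [Polynomial.map_sub, map_X, map_C, RingHom.coe_coe, h2, sub_comp, mul_comp, X_comp, C_comp,
        mul_sub, ← C_mul, mul_inv_cancel_left₀ rr_ne]
    have := congrArg (coeff · j) this
    simp only [coeff_map, coeff_C_mul, comp_C_mul_X_coeff, RingHom.coe_coe] at this
    rw [this, zpow_add₀ rr_ne, zpow_natCast]; ring

/-- The output: a slice and finitely many homogeneous invariants generating the field with it. -/
theorem gens {P : σ → (RR σ)} {Q : (RR σ)} {a b : σ → (KK σ)[X]} (h : Nd P Q a b) (hn : ¬ ∀ i, P i = .X i * Q)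
    (hs : ∀ i, Sm s τ (a i) (1 - (b i).natDegree) ∧ Sm s τ (b i) (-(b i).natDegree)) :
    ∃ t, s t = (io σ) t + (rr σ) ∧ τ t = (rr σ)⁻¹ * (io σ) t ∧ ∀ i, ∃ (α β : (KK σ)[X]) (n : ℤ), β.eval t ≠ 0 ∧
      α.eval t = (xx σ) i * β.eval t ∧
      (∀ j, s (α.coeff j) = (io σ) (α.coeff j) ∧ τ (α.coeff j) = (rr σ) ^ (1 - n + j) * (io σ) (α.coeff j)) ∧
      (∀ j, s (β.coeff j) = (io σ) (β.coeff j) ∧ τ (β.coeff j) = (rr σ) ^ (-n + j) * (io σ) (β.coeff j)) := by
  obtain ⟨t, h1, h2⟩ : ∃ t, s t = (io σ) t + (rr σ) ∧ τ t = (rr σ)⁻¹ * (io σ) t := by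
    have := mt h.nt hn
    push Not at this
    obtain ⟨i, hi⟩ := this
    by_cases h0 : (a i).natDegree = 0
    · exact (hs i).2.slice (hi h0)
    · exact (hs i).1.slice h0
  have e : ∀ p : (KK σ)[X], (p.comp (X - C t)).eval t = p.coeff 0 := fun p => by
    simp [eval_comp, coeff_zero_eq_eval_zero]
  exact ⟨t, h1, h2, fun i => ⟨(a i).comp (X - C t), (b i).comp (X - C t), _, e _ ▸ h.b0 i,
    by rw [e, e, h.a0], (hs i).1.shift h1 h2, (hs i).2.shift h1 h2⟩⟩

end Pool.Agent.H.MP_956d6c_ag
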