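import Mathlib

set_option autoImplicit false
open MvPolynomial Filter Topology

namespace Pool.Agent.H.MP_956d6c_ag
variable {σ : Type}

/-- A rational self-map of `ℂ^σ`: numerators `P i` over a common nonzero denominator `Q`. -/
structure RMap (σ : Type) where
  P : σ → MvPolynomial σ ℂ
  Q : MvPolynomial σ ℂ
  hQ : Q ≠ 0

/-- The value of a rational map at a point. -/
noncomputable def RMap.ev (φ : RMap σ) (p : σ → ℂ) : σ → ℂ := fun i => eval p (φ.P i) / eval p φ.Q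

/-- The denominator does not vanish at the point. -/
def RMap.Reg (φ : RMap σ) (p : σ → ℂ) : Prop := eval p φ.Q ≠ 0

/-- The identity map. -/
noncomputable def RMap.id (σ : Type) : RMap σ := ⟨X, 1, one_ne_zero⟩

/-- A property holds on some nonempty open set. -/
def Gen {T : Type} [TopologicalSpace T] (S : T → Prop) : Prop :=
  ∃ U : Set T, IsOpen U ∧ U.Nonempty ∧ ∀ p ∈ U, S p

/-- Rational projective flow: the projective translation equation and the boundary condition. -/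
def IsFlow (φ : RMap σ) : Prop :=
  Gen (fun q : (σ → ℂ) × ℂ => q.2 ≠ 0 ∧ φ.Reg q.1 ∧ φ.Reg (q.2 • q.1) ∧
    φ.Reg (((1 - q.2) / q.2) • φ.ev (q.2 • q.1)) ∧
    (1 - q.2) • φ.ev q.1 = φ.ev (((1 - q.2) / q.2) • φ.ev (q.2 • q.1))) ∧
  Gen (fun p : σ → ℂ => Tendsto (fun c : ℂ => c⁻¹ • φ.ev (c • p)) (𝓝[≠] 0) (𝓝 p))

/-- `ψ = m ∘ φ ∘ l` with `l` a 1-homogeneous birational map with inverse `m`. -/
def Conj (φ ψ : RMap σ) : Prop :=
  ∃ l m : RMap σ,
    Gen (fun p => l.Reg p ∧ m.Reg (l.ev p) ∧ m.ev (l.ev p) = p) ∧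
    Gen (fun p => m.Reg p ∧ l.Reg (m.ev p) ∧ l.ev (m.ev p) = p) ∧
    Gen (fun q : (σ → ℂ) × ℂ => l.Reg q.1 ∧ l.Reg (q.2 • q.1) ∧ l.ev (q.2 • q.1) = q.2 • l.ev q.1) ∧
    Gen (fun p => ψ.Reg p ∧ l.Reg p ∧ φ.Reg (l.ev p) ∧ m.Reg (φ.ev (l.ev p)) ∧
      ψ.ev p = m.ev (φ.ev (l.ev p)))

/-- The field of rational functions. -/
abbrev Kf (σ : Type) : Type := FractionRing (MvPolynomial σ ℂ)

/-- The coordinate functions. -/
noncomputable def cx (i : σ) : Kf σ := algebraMap (MvPolynomial σ ℂ) (Kf σ) (X i)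

/-- A level `N`, a subfield `F` and `u` transcendental over `F` such that `F (u)` is the field generated by
the ratios `x i / x z`. -/
structure Datum (z : σ) where
  N : ℕ
  F : IntermediateField ℂ (Kf σ)
  u : Kf σ
  tr : Transcendental F u
  gen : F ⊔ IntermediateField.adjoin ℂ {u} = IntermediateField.adjoin ℂ (Set.range fun i => cx i / cx z)

/-- Substituting `φ` fixes `F` pointwise, multiplies `u` by `(1 + x z) ^ N` and sends `x z` to
`x z / (1 + x z)`. -/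
def Normal {z : σ} (d : Datum z) (φ : RMap σ) : Prop :=
  ∃ s : Kf σ →ₐ[ℂ] Kf σ,
    (∀ i, s (cx i) = algebraMap (MvPolynomial σ ℂ) (Kf σ) (φ.P i) / algebraMap (MvPolynomial σ ℂ) (Kf σ) φ.Q) ∧
    (∀ f ∈ d.F, s f = f) ∧ s d.u = d.u * (1 + cx z) ^ d.N ∧ s (cx z) = cx z / (1 + cx z)

end Pool.Agent.H.MP_956d6c_ag
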