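import Pool.Agent.H.MP_956d6c_ag.D

set_option autoImplicit false
open Polynomial IntermediateField

namespace Pool.Agent.H.MP_956d6c_ag
variable {σ : Type} [Fintype σ]

/-- Where two embeddings agree. -/
noncomputable def EQ {K Ω : Type} [Field K] [Field Ω] [Algebra ℂ K] [Algebra ℂ Ω] (a b : K →ₐ[ℂ] Ω) :
    IntermediateField ℂ K :=
  (AlgHom.equalizer a b).toIntermediateField fun x (h : a x = b x) => by
    change a x⁻¹ = b x⁻¹
    rw [map_inv₀, map_inv₀, h]

theorem mem_EQ {K Ω : Type} [Field K] [Field Ω] [Algebra ℂ K] [Algebra ℂ Ω] {a b : K →ₐ[ℂ] Ω} {x : K} :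
    x ∈ EQ a b ↔ a x = b x := Iff.rfl

/-- The field of ratios. -/
noncomputable def K0 (z : σ) : IntermediateField ℂ (KK σ) := adjoin ℂ (Set.range fun i => xx σ i / xx σ z)

omit [Fintype σ] in
theorem xn (i : σ) : xx σ i ≠ 0 := xx_ind.ne_zero i

omit [Fintype σ] in
theorem y_mem (z i : σ) : xx σ i / xx σ z ∈ K0 z := subset_adjoin _ _ ⟨i, rfl⟩

theorem x1_ne (z : σ) : 1 + xx σ z ≠ 0 := by
  have := aev_ne (AlgHom.id ℂ (KK σ)) (G := 1 + MvPolynomial.X z) fun h => by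
    simpa using congrArg (MvPolynomial.eval 0) h
  simpa using this

omit [Fintype σ] in
theorem onK0 {Ω : Type} [Field Ω] [Algebra ℂ Ω] {a b : KK σ →ₐ[ℂ] Ω} {c : Ω} (hc : c ≠ 0)
    (h : ∀ i, a (xx σ i) = c * b (xx σ i)) (z : σ) {f : KK σ} (hf : f ∈ K0 z) : a f = b f := by
  refine mem_EQ.mp ((adjoin_le_iff.mpr ?_ : K0 z ≤ EQ a b) hf)
  rintro _ ⟨i, rfl⟩
  change a _ = b _
  rw [map_div₀, map_div₀, h, h, mul_div_mul_left _ _ hc]

omit [Fintype σ] in
theorem tr {S : Type} [Field S] [Algebra S (KK σ)] (θ : KK σ →ₐ[ℂ] MM σ)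
    (hS : ∀ f : S, θ (algebraMap S (KK σ) f) = io σ (algebraMap S (KK σ) f)) {y : KK σ} {q : (KK σ)[X]}
    (hq : q.natDegree ≠ 0) (hy : θ y = algebraMap _ _ q) : Transcendental S y := fun ⟨p, h1, h2⟩ =>
  RF_trans hq ⟨p.map (algebraMap S (KK σ)), (Polynomial.map_ne_zero_iff (algebraMap S (KK σ)).injective).mpr h1, by
    have := congrArg (θ : KK σ →+* MM σ) h2
    rw [aeval_def, hom_eval₂, map_zero] at this
    rw [← this, aeval_def, eval₂_map, ← hy]
    congr 1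
    exact RingHom.ext fun f => (hS f).symm⟩

theorem scale (θ : KK σ →ₐ[ℂ] KK σ) {c : MM σ} (hc : Transcendental (KK σ) c) :
    ∃ a : KK σ →ₐ[ℂ] MM σ, ∀ i, a (xx σ i) = c * io σ (θ (xx σ i)) := by
  refine lift_hom _ ((injective_iff_map_eq_zero _).mpr fun G hG => ?_)
  rw [← SS_one G, ev_inj θ hc (q := SS G) ((SS_ev _ _ G).trans hG), Polynomial.eval_zero]

variable {s τ : KK σ →ₐ[ℂ] MM σ}

theorem dz (hτ : ∀ i, τ (xx σ i) = rr σ * io σ (xx σ i)) (z : σ) {f : KK σ} (hf : τ f = io σ f) :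
    f ∈ K0 z := by
  classical
  have x2 : xx σ z ≠ 0 := xn z
  obtain ⟨L, E, hE, hL⟩ := cden fun _ : σ => f * xx σ z
  have H := homog hτ hE (L := L) (i := z) (by rw [← hL, map_mul, map_mul, hf, hτ]; ring) (xx σ)
  let q := (X * SS E).map (MvPolynomial.aeval (xx σ) : RR σ →ₐ[ℂ] KK σ).toRingHom
  have hq : q ≠ 0 := (Polynomial.map_ne_zero_iff xx_ind).mpr (mul_ne_zero X_ne_zero fun h =>
    hE (by rw [← SS_one E, h, eval_zero]))
  obtain ⟨c, hc⟩ : ∃ c : ℂ, ¬ q.IsRoot (algebraMap ℂ (KK σ) c / xx σ z) := by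
    by_contra! h
    refine Set.infinite_range_of_injective (f := fun c : ℂ => algebraMap ℂ (KK σ) c / xx σ z)
      (fun a b e => (algebraMap ℂ (KK σ)).injective ((div_left_inj' x2).mp e))
      ((q.roots.toFinset.finite_toSet).subset ?_)
    rintro _ ⟨c, rfl⟩
    simpa [hq] using h c
  rw [IsRoot, eval_map, eval₂_mul, eval₂_X, SS_ev, mul_eq_zero, not_or] at hc
  have hm : ∀ G : RR σ, MvPolynomial.aeval (fun j => algebraMap ℂ (KK σ) c / xx σ z * xx σ j) G ∈ K0 z :=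
    fun G => by
    induction G using MvPolynomial.induction_on with
    | C r => simp
    | add p q hp hq => rw [map_add]; exact add_mem hp hq
    | mul_X p i hp =>
      rw [map_mul, MvPolynomial.aeval_X, div_mul_eq_mul_div, mul_div_assoc]
      exact mul_mem hp (mul_mem (IntermediateField.algebraMap_mem _ _) (y_mem z i))
  have e1 := hL z
  have e2 := H (algebraMap ℂ (KK σ) c / xx σ z)
  have n1 : MvPolynomial.aeval (xx σ) E ≠ 0 := aev_ne (AlgHom.id ℂ (KK σ)) hE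
  rw [rm, eq_div_iff n1] at e1
  have c0 : algebraMap ℂ (KK σ) c ≠ 0 := fun h => hc.1 (by simp [h])
  have : f = MvPolynomial.aeval (fun j => algebraMap ℂ (KK σ) c / xx σ z * xx σ j) (L z) /
      (algebraMap ℂ (KK σ) c * MvPolynomial.aeval (fun j => algebraMap ℂ (KK σ) c / xx σ z * xx σ j) E) := by
    rw [eq_div_iff (mul_ne_zero c0 hc.2)]
    refine mul_right_cancel₀ n1 ?_
    change _ * MvPolynomial.aeval (xx σ) E = _ * MvPolynomial.aeval (xx σ) E
    rw [e2, ← e1]; field_simp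
  exact this ▸ div_mem (hm _) (mul_mem (IntermediateField.algebraMap_mem _ _) (hm _))

open scoped IntermediateField.algebraAdjoinAdjoin in
theorem pure {F K : Type} [Field F] [Field K] [Algebra F K] (h2 : 2 ≤ Algebra.trdeg F K) (v : Fin 2 → K)
    (ht : adjoin F (Set.range v) = ⊤) : ∃ E : FractionRing (MvPolynomial (Fin 2) F) ≃+* K,
      (∀ f, E (algebraMap (MvPolynomial (Fin 2) F) _ (MvPolynomial.C f)) = algebraMap F K f) ∧
      ∀ i, E (algebraMap (MvPolynomial (Fin 2) F) _ (MvPolynomial.X i)) = v i := by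
  haveI : Algebra.IsAlgebraic (adjoin F (Set.range v)) K := ⟨fun f =>
    isAlgebraic_algebraMap (R := adjoin F (Set.range v))
      (⟨f, ht ▸ IntermediateField.mem_top⟩ : adjoin F (Set.range v))⟩
  haveI : Algebra.IsAlgebraic (Algebra.adjoin F (Set.range v)) K :=
    Algebra.IsAlgebraic.trans _ (adjoin F (Set.range v)) _
  have hv := (Algebra.IsAlgebraic.isTranscendenceBasis_of_le_trdeg_of_finite F v (by simpa using h2)).1
  refine ⟨((hv.aevalEquivField.trans (equivOfEq ht)).trans topEquiv).toRingEquiv, fun f => ?_, fun i => ?_⟩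
  · change ((hv.aevalEquivField _ : adjoin F (Set.range v)) : K) = _
    rw [hv.aevalEquivField_algebraMap_apply_coe]; simp
  · change ((hv.aevalEquivField _ : adjoin F (Set.range v)) : K) = _
    rw [hv.aevalEquivField_algebraMap_apply_coe]; simp

theorem ext2 {K : Type} [Field K] [Algebra ℂ K] {F F' : IntermediateField ℂ K} (e : F ≃ₐ[ℂ] F')
    (h : 2 ≤ Algebra.trdeg F K) (h' : 2 ≤ Algebra.trdeg F' K) {a b a' b' : K}
    (ht : F ⊔ adjoin ℂ {a, b} = ⊤) (ht' : F' ⊔ adjoin ℂ {a', b'} = ⊤) :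
    ∃ θ : K ≃ₐ[ℂ] K, (∀ f : F, θ f = e f) ∧ θ a = a' ∧ θ b = b' := by
  have k : ∀ {F : IntermediateField ℂ K} {a b : K}, F ⊔ adjoin ℂ {a, b} = ⊤ →
      adjoin F (Set.range ![a, b]) = ⊤ := fun {F a b} ht => by
    rw [← restrictScalars_adjoin_eq_sup] at ht
    rw [Matrix.range_cons, Matrix.range_cons, Matrix.range_empty, Set.union_empty, Set.singleton_union]
    exact eq_top_iff.mpr fun f _ => (mem_restrictScalars ℂ).mp (ht ▸ mem_top)
  obtain ⟨E, e1, e2⟩ := pure h _ (k ht)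
  obtain ⟨E', e3, e4⟩ := pure h' _ (k ht')
  let m : FractionRing (MvPolynomial (Fin 2) F) ≃+* FractionRing (MvPolynomial (Fin 2) F') :=
    IsFractionRing.ringEquivOfRingEquiv (MvPolynomial.mapEquiv (Fin 2) e.toRingEquiv)
  have hf : ∀ f : F, (E.symm.trans (m.trans E')) f = e f := fun f => by
    have : E.symm f = algebraMap (MvPolynomial (Fin 2) F) _ (MvPolynomial.C f) := E.symm_apply_eq.mpr (e1 f).symm
    simp only [RingEquiv.trans_apply, this, m, IsFractionRing.ringEquivOfRingEquiv_algebraMap]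
    rw [MvPolynomial.mapEquiv_apply, MvPolynomial.map_C, e3]; rfl
  have hv : ∀ i, (E.symm.trans (m.trans E')) (![a, b] i) = ![a', b'] i := fun i => by
    have : E.symm (![a, b] i) = algebraMap (MvPolynomial (Fin 2) F) _ (MvPolynomial.X i) :=
      E.symm_apply_eq.mpr (e2 i).symm
    simp only [RingEquiv.trans_apply, this, m, IsFractionRing.ringEquivOfRingEquiv_algebraMap]
    rw [MvPolynomial.mapEquiv_apply, MvPolynomial.map_X, e4]
  refine ⟨AlgEquiv.ofRingEquiv (f := E.symm.trans (m.trans E')) fun c => ?_, hf, hv 0, hv 1⟩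
  have := hf (algebraMap ℂ F c)
  rw [e.commutes] at this
  exact this

/-- Admissible data. -/
def Ad (z : σ) (F : IntermediateField ℂ (KK σ)) (u : KK σ) : Prop :=
  Transcendental F u ∧ F ⊔ adjoin ℂ {u} = K0 z

/-- Normal substitution. -/
structure Nm (z : σ) (N : ℕ) (F : IntermediateField ℂ (KK σ)) (u : KK σ) (a : KK σ →ₐ[ℂ] KK σ) : Prop where
  hF : ∀ f ∈ F, a f = f
  hu : a u = u * (1 + xx σ z) ^ N
  hz : a (xx σ z) = xx σ z / (1 + xx σ z)

variable {z : σ} {F : IntermediateField ℂ (KK σ)} {u : KK σ}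

omit [Fintype σ] in
theorem Ad.le (h : Ad z F u) : F ≤ K0 z := h.2 ▸ le_sup_left

omit [Fintype σ] in
theorem Ad.mem (h : Ad z F u) : u ∈ K0 z := h.2 ▸ (le_sup_right : _ ≤ F ⊔ _) (subset_adjoin _ _ rfl)

omit [Fintype σ] in
theorem Ad.ne (h : Ad z F u) : u ≠ 0 := fun e => h.1 (e ▸ isAlgebraic_zero)

omit [Fintype σ] in
theorem Ad.sub (h : Ad z F u) {S : IntermediateField ℂ (KK σ)} (h1 : F ≤ S) (h2 : u ∈ S) : K0 z ≤ S :=
  h.2 ▸ sup_le h1 (adjoin_simple_le_iff.mpr h2)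

theorem top_K0 {S : IntermediateField ℂ (KK σ)} (h1 : K0 z ≤ S) (h2 : xx σ z ∈ S) : S = ⊤ :=
  top_of_x fun i => by simpa [xn z] using mul_mem (h1 (y_mem z i)) h2

theorem z_tr (z : σ) : Transcendental (K0 z) (xx σ z) := by
  obtain ⟨τ, hτ⟩ := ex_tau (σ := σ)
  refine tr τ (fun f => onK0 rr_ne hτ z f.2) (q := C (xx σ z) * X) (by simp [xn z]) ?_
  rw [hτ, map_mul, mul_comm]; rfl

theorem Ad.two (h : Ad z F u) : 2 ≤ Algebra.trdeg F (KK σ) := by
  let L : IntermediateField F (KK σ) := extendScalars h.le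
  haveI : Algebra.Transcendental F L := ⟨⟨u, h.mem⟩, fun e => h.1 (IntermediateField.isAlgebraic_iff.mp e)⟩
  haveI : Algebra.Transcendental L (KK σ) := ⟨xx σ z, z_tr z⟩
  have e2 := trdeg_add_eq F L (A := KK σ)
  have p1 := Cardinal.one_le_iff_pos.mpr (trdeg_pos F L)
  have p2 := Cardinal.one_le_iff_pos.mpr (trdeg_pos L (KK σ))
  rw [← e2, ← one_add_one_eq_two]
  exact add_le_add p1 p2

theorem Ad.top (h : Ad z F u) : F ⊔ adjoin ℂ {u, xx σ z} = ⊤ :=
  top_K0 (h.sub le_sup_left ((le_sup_right : _ ≤ F ⊔ _) (subset_adjoin _ _ (by simp))))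
    ((le_sup_right : _ ≤ F ⊔ _) (subset_adjoin _ _ (by simp)))

theorem Ad.ex (h : Ad z F u) (N : ℕ) : ∃ a : KK σ ≃ₐ[ℂ] KK σ, Nm z N F u a := by
  have h0 := x1_ne z
  obtain ⟨θ, h1, h2, h3⟩ := ext2 (AlgEquiv.refl (A₁ := F)) h.two h.two h.top
    (a' := u * (1 + xx σ z) ^ N) (b' := xx σ z / (1 + xx σ z)) (by
      set S := F ⊔ adjoin ℂ {u * (1 + xx σ z) ^ N, xx σ z / (1 + xx σ z)}
      have m1 : u * (1 + xx σ z) ^ N ∈ S := (le_sup_right : _ ≤ F ⊔ _) (subset_adjoin _ _ (by simp))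
      have m2 : xx σ z / (1 + xx σ z) ∈ S := (le_sup_right : _ ≤ F ⊔ _) (subset_adjoin _ _ (by simp))
      have m3 : 1 + xx σ z ∈ S := by
        have : 1 + xx σ z = (1 - xx σ z / (1 + xx σ z))⁻¹ := by
          refine eq_inv_of_mul_eq_one_left ?_
          field_simp; ring
        exact this ▸ inv_mem (sub_mem (one_mem _) m2)
      refine top_K0 (h.sub le_sup_left ?_) (by simpa using sub_mem m3 (one_mem _))
      simpa [h0] using div_mem m1 (pow_mem m3 N))
  exact ⟨θ, fun f hf => h1 ⟨f, hf⟩, h2, h3⟩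

end Pool.Agent.H.MP_956d6c_ag
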