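import Pool.Agent.H.MP_956d6c_ag.E

set_option autoImplicit false
open Polynomial IntermediateField

namespace Pool.Agent.H.MP_956d6c_ag
variable {σ : Type} [Fintype σ] {s τ : KK σ →ₐ[ℂ] MM σ} {z : σ} {F : IntermediateField ℂ (KK σ)} {u : KK σ}
  {N : ℕ} {a : KK σ →ₐ[ℂ] KK σ}

omit [Fintype σ] in
theorem Ad.rep (h : Ad z F u) {g : KK σ} (hg : g ∈ K0 z) :
    ∃ A B : F[X], IsCoprime A B ∧ aeval u B ≠ 0 ∧ g = aeval u A / aeval u B := by
  rw [← h.2, ← restrictScalars_adjoin_eq_sup, mem_restrictScalars] at hg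
  obtain ⟨r, hr⟩ := (RatFunc.algEquivOfTranscendental u h.1).surjective ⟨g, hg⟩
  refine ⟨r.num, r.denom, r.isCoprime_num_denom, fun e => r.denom_ne_zero (transcendental_iff.mp h.1 _ e), ?_⟩
  rw [← RatFunc.algEquivOfTranscendental_apply u h.1, hr]

/-- `u (1 + x T) ^ N`. -/
noncomputable def WW (z : σ) (N : ℕ) (u : KK σ) : (KK σ)[X] := C u * (C (xx σ z) * X + C 1) ^ N

omit [Fintype σ] in
theorem WW_deg (hu : u ≠ 0) : (WW z N u).natDegree = N := by
  rw [WW, natDegree_C_mul hu, natDegree_pow, natDegree_linear (xn z), mul_one]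

theorem tw (hτ : ∀ i, τ (xx σ i) = rr σ * io σ (xx σ i)) :
    τ (1 + xx σ z) = algebraMap _ (MM σ) (C (xx σ z) * X + C 1) := by
  rw [map_add, map_add, map_mul, hτ, map_one, C_1, map_one, add_comm, mul_comm]; rfl

theorem Nm.ta (hτ : ∀ i, τ (xx σ i) = rr σ * io σ (xx σ i)) (h : Ad z F u) (hn : Nm z N F u a) (A : F[X]) :
    τ (a (aeval u A)) = algebraMap _ (MM σ) ((A.map (algebraMap F (KK σ))).comp (WW z N u)) := by
  induction A using Polynomial.induction_on with
  | C f =>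
    rw [aeval_C, map_C, C_comp]
    change τ (a f) = io σ f
    rw [hn.hF _ f.2, onK0 rr_ne hτ z (h.le f.2)]
  | add p q hp hq => simp only [map_add, Polynomial.map_add, add_comp, hp, hq]
  | monomial n f hp =>
    rw [pow_succ, ← mul_assoc, map_mul, map_mul, map_mul, hp, Polynomial.map_mul (p := C f * X ^ n), mul_comp,
      map_mul, aeval_X, map_X, X_comp, hn.hu, map_mul τ, map_pow τ, tw hτ, onK0 rr_ne hτ z h.mem, WW, map_mul,
      map_pow]
    rfl

theorem Nm.key (hτ : ∀ i, τ (xx σ i) = rr σ * io σ (xx σ i)) (h : Ad z F u) (hn : Nm z N F u a) {g : KK σ}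
    (hg : g ∈ K0 z) (g0 : g ≠ 0) {m n : ℕ} (e : a g * (1 + xx σ z) ^ m = (1 + xx σ z) ^ n * g) :
    (N : ℤ) ∣ n - m ∧ (N ≠ 0 → m = 0 → n = 0 → g ∈ F) := by
  obtain ⟨A, B, c, hB, rfl⟩ := h.rep hg
  have hA : aeval u A ≠ 0 := fun e => g0 (by rw [e, zero_div])
  have hi := IsFractionRing.injective (KK σ)[X] (MM σ)
  have nz : ∀ p : F[X], aeval u p ≠ 0 → (p.map (algebraMap F (KK σ))).comp (WW z N u) ≠ 0 := fun p hp e => by
    have := hn.ta hτ h p
    rw [e, map_zero, map_eq_zero, map_eq_zero] at this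
    exact hp this
  have e1 := congrArg τ e
  rw [map_mul, map_mul, map_pow, map_pow, tw hτ, onK0 rr_ne hτ z hg, map_div₀, map_div₀, map_div₀, hn.ta hτ h,
    hn.ta hτ h, div_mul_eq_mul_div, ← mul_div_assoc,
    div_eq_div_iff ((map_ne_zero_iff _ hi).mpr (nz B hB)) ((_root_.map_ne_zero _).mpr hB)] at e1
  have e2 : (A.map (algebraMap F (KK σ))).comp (WW z N u) * (C (xx σ z) * X + C 1) ^ m * C (aeval u B) =
      (C (xx σ z) * X + C 1) ^ n * C (aeval u A) * (B.map (algebraMap F (KK σ))).comp (WW z N u) := by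
    refine hi ?_
    simp only [map_mul (algebraMap (KK σ)[X] (MM σ)), map_pow (algebraMap (KK σ)[X] (MM σ))] at e1 ⊢
    exact e1
  have w0 : (C (xx σ z) * X + C 1 : (KK σ)[X]) ≠ 0 := fun e => by simpa using congrArg (eval 0) e
  constructor
  · have := congrArg natDegree e2
    rw [natDegree_mul (mul_ne_zero (nz A hA) (pow_ne_zero _ w0)) (C_ne_zero.mpr hB),
      natDegree_mul (nz A hA) (pow_ne_zero _ w0),
      natDegree_mul (mul_ne_zero (pow_ne_zero _ w0) (C_ne_zero.mpr hA)) (nz B hB),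
      natDegree_mul (pow_ne_zero _ w0) (C_ne_zero.mpr hA), natDegree_comp, natDegree_comp, natDegree_pow,
      natDegree_pow, natDegree_linear (xn z), natDegree_C, natDegree_C, WW_deg h.ne] at this
    refine ⟨(A.map (algebraMap F (KK σ))).natDegree - (B.map (algebraMap F (KK σ))).natDegree, ?_⟩
    have := congrArg (Nat.cast : ℕ → ℤ) this
    push_cast at this
    linear_combination -this
  · rintro hN rfl rfl
    have := congrArg (eval (-(xx σ z)⁻¹)) e2
    have w : eval (-(xx σ z)⁻¹) (WW z N u) = 0 := by simp [WW, xn z, hN]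
    simp only [eval_mul, eval_comp, w, pow_zero, eval_one, eval_C, mul_one, one_mul,
      ← coeff_zero_eq_eval_zero, coeff_map] at this
    have b0 : B.coeff 0 ≠ 0 := fun e => by
      rw [e, map_zero, mul_zero, mul_eq_zero, map_eq_zero] at this
      obtain ⟨p, q, e3⟩ := c
      have e4 := congrArg (coeff · 0) e3
      simp [this.resolve_right hB, e] at e4
    have b1 := (_root_.map_ne_zero (algebraMap F (KK σ))).mpr b0
    rw [(div_eq_div_iff hB b1).mpr this.symm]
    exact div_mem (A.coeff 0).2 (B.coeff 0).2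

theorem Nm.dvd (hτ : ∀ i, τ (xx σ i) = rr σ * io σ (xx σ i)) (h : Ad z F u) (hn : Nm z N F u a) {f : KK σ}
    (f0 : f ≠ 0) {d : ℕ} (h1 : τ f = rr σ ^ d * io σ f) (h2 : a f = f) : N ∣ d := by
  have x0 := xn z
  have h0 := x1_ne z
  have := (hn.key hτ h (g := f / xx σ z ^ d) (m := 0) (n := d) (dz hτ z (by
    rw [map_div₀, map_div₀, map_pow, map_pow, h1, hτ, mul_pow, mul_div_mul_left _ _ (pow_ne_zero _ rr_ne)]))
    (div_ne_zero f0 (pow_ne_zero _ x0)) (by
      rw [map_div₀, map_pow, h2, hn.hz, div_pow]; field_simp)).1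
  exact_mod_cast (by simpa using this : (N : ℤ) ∣ d)

theorem Nm.eta (hτ : ∀ i, τ (xx σ i) = rr σ * io σ (xx σ i)) (h : Ad z F u) (hn : Nm z N F u a) :
    ∃ f, f ≠ 0 ∧ τ f = rr σ ^ N * io σ f ∧ a f = f := by
  have h0 := x1_ne z
  refine ⟨u * xx σ z ^ N, mul_ne_zero h.ne (pow_ne_zero _ (xn z)), ?_, ?_⟩
  · rw [map_mul, map_mul, map_pow, map_pow, hτ, onK0 rr_ne hτ z h.mem]; ring
  · rw [map_mul, map_pow, hn.hu, hn.hz, div_pow]; field_simp

theorem Nm.fix (hτ : ∀ i, τ (xx σ i) = rr σ * io σ (xx σ i)) (h : Ad z F u) (hn : Nm z N F u a) (hN : N ≠ 0)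
    (f : KK σ) : f ∈ F ↔ τ f = io σ f ∧ a f = f := by
  refine ⟨fun hf => ⟨onK0 rr_ne hτ z (h.le hf), hn.hF f hf⟩, fun ⟨h1, h2⟩ => ?_⟩
  by_cases f0 : f = 0
  · exact f0 ▸ zero_mem _
  · exact (hn.key hτ h (m := 0) (n := 0) (dz hτ z h1) f0 (by simpa using h2)).2 hN rfl rfl

theorem std (z b : σ) (hb : b ≠ z) :
    Ad z (adjoin ℂ ((fun i => xx σ i / xx σ z) '' {i | i ≠ b ∧ i ≠ z})) (xx σ b / xx σ z) := by
  classical
  constructor
  · let v : σ → KK σ := fun i => if i = z then xx σ z else xx σ i / xx σ z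
    obtain ⟨θ, -, hθ, -⟩ := gen_equiv v fun i => by
      have m : ∀ j, v j ∈ adjoin ℂ (Set.range v) := fun j => subset_adjoin _ _ ⟨j, rfl⟩
      have mz : xx σ z ∈ adjoin ℂ (Set.range v) := by simpa [v] using m z
      by_cases e : i = z
      · exact e ▸ mz
      · simpa [v, e, xn z] using mul_mem (m i) mz
    have hv : AlgebraicIndependent ℂ v := by
      have := xx_ind.map' (f := θ) θ.injective
      rwa [show θ ∘ xx σ = v from funext hθ] at this
    have := hv.transcendental_adjoin (s := {i | i ≠ b ∧ i ≠ z}) (i := b) (by simp)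
    rw [← transcendental_adjoin_iff, Set.image_congr (g := fun i => xx σ i / xx σ z) fun i hi => if_neg hi.2] at this
    simpa only [v, if_neg hb] using this
  · refine le_antisymm (sup_le (adjoin.mono _ _ _ (Set.image_subset_range _ _))
      (adjoin_simple_le_iff.mpr (y_mem z b))) (adjoin_le_iff.mpr ?_)
    rintro _ ⟨i, rfl⟩
    by_cases e : i = z
    · simp only [e, div_self (xn z)]; exact one_mem _
    by_cases e' : i = b
    · exact SetLike.le_def.mp le_sup_right (subset_adjoin _ _ (by simp [e']))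
    · exact SetLike.le_def.mp le_sup_left (subset_adjoin _ _ ⟨i, ⟨e', e⟩, rfl⟩)

theorem core (hτ : ∀ i, τ (xx σ i) = rr σ * io σ (xx σ i)) (z b : σ) (hb : b ≠ z) {t : KK σ}
    (h5 : s t = io σ t + rr σ) (h6 : τ t = (rr σ)⁻¹ * io σ t)
    (h : ∀ i, ∃ (α β : (KK σ)[X]) (n : ℤ), β.eval t ≠ 0 ∧ α.eval t = xx σ i * β.eval t ∧
      (∀ j, s (α.coeff j) = io σ (α.coeff j) ∧ τ (α.coeff j) = rr σ ^ (1 - n + j) * io σ (α.coeff j)) ∧
      (∀ j, s (β.coeff j) = io σ (β.coeff j) ∧ τ (β.coeff j) = rr σ ^ (-n + j) * io σ (β.coeff j))) :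
    ∃ (N : ℕ) (F : IntermediateField ℂ (KK σ)) (u : KK σ), Ad z F u ∧ (∀ f ∈ F, s f = io σ f) ∧
      s (u / t ^ N) = io σ (u / t ^ N) := by
  classical
  have hr := rr_ne (σ := σ)
  have ht : t ≠ 0 := by
    rintro rfl
    rw [map_zero, map_zero, zero_add] at h5
    exact hr h5.symm
  let D : AddSubgroup ℤ :=
    { carrier := {d | ∃ f, f ≠ 0 ∧ s f = io σ f ∧ τ f = rr σ ^ d * io σ f}
      zero_mem' := ⟨1, one_ne_zero, by simp, by simp⟩
      add_mem' := fun ⟨f, a1, a2, a3⟩ ⟨g, b1, b2, b3⟩ => ⟨f * g, mul_ne_zero a1 b1, by simp only [map_mul, a2, b2],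
        by simp only [map_mul, a3, b3, zpow_add₀ hr]; ring⟩
      neg_mem' := fun ⟨f, a1, a2, a3⟩ => ⟨f⁻¹, inv_ne_zero a1, by simp only [map_inv₀, a2],
        by simp only [map_inv₀, a3, zpow_neg, mul_inv]⟩ }
  obtain ⟨d0, hd⟩ := Int.subgroup_cyclic D
  have hdv : ∀ d ∈ D, (d0.natAbs : ℤ) ∣ d := fun d h => by
    rw [hd, AddSubgroup.mem_closure_singleton] at h
    obtain ⟨k, rfl⟩ := h
    exact Int.natAbs_dvd.mpr (Dvd.intro_left k rfl)
  have hN : (d0.natAbs : ℤ) ∈ D := by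
    have : d0 ∈ D := hd ▸ AddSubgroup.mem_closure_singleton_self d0
    rcases Int.natAbs_eq d0 with e | e
    · exact e ▸ this
    · simpa [← neg_eq_iff_eq_neg.mpr e] using neg_mem this
  generalize d0.natAbs = N at hdv hN
  choose α β n a1 a2 a3 a4 using h
  by_cases h0 : N = 0
  · have hz : ∀ f, f ≠ 0 → s f = io σ f → ∀ d : ℤ, τ f = rr σ ^ d * io σ f → d = 0 := fun f b1 b2 d b3 => by
      simpa [h0] using hdv d ⟨f, b1, b2, b3⟩
    have mono : ∀ (p : (KK σ)[X]) (m : ℤ), p.eval t ≠ 0 → (∀ j, s (p.coeff j) = io σ (p.coeff j) ∧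
        τ (p.coeff j) = rr σ ^ (m + j) * io σ (p.coeff j)) → ∃ c, s c = io σ c ∧ p.eval t = c * t ^ (-m) := by
      intro p m b1 b2
      obtain ⟨j, hj⟩ : ∃ j, p.coeff j ≠ 0 := by
        by_contra! e
        exact b1 (by rw [Polynomial.ext (q := 0) e, eval_zero])
      have e1 := hz _ hj (b2 j).1 _ (b2 j).2
      refine ⟨p.coeff j, (b2 j).1, ?_⟩
      rw [eval_eq_sum, sum_def, Finset.sum_eq_single j (fun k hk e => ?_) (by simp [hj]),
        show -m = j by omega, zpow_natCast]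
      have := hz _ (mem_support_iff.mp hk) (b2 k).1 _ (b2 k).2
      omega
    have hy : ∀ i, s (xx σ i * t) = io σ (xx σ i * t) := fun i => by
      obtain ⟨c, b1, b2⟩ := mono _ _ (a2 i ▸ mul_ne_zero (xn i) (a1 i)) (a3 i)
      obtain ⟨c', b3, b4⟩ := mono _ _ (a1 i) (a4 i)
      have c0 : c' ≠ 0 := fun e => a1 i (by simp [b4, e])
      have : xx σ i * t = c / c' := by
        have := a2 i
        rw [b2, b4, neg_sub, neg_neg, zpow_sub_one₀ ht] at this
        have := zpow_ne_zero (n i) ht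
        field_simp at *
        linear_combination -this
      rw [this, map_div₀, map_div₀, b1, b3]
    have e2 : K0 z ≤ EQ s (io σ) := adjoin_le_iff.mpr (by
      rintro _ ⟨i, rfl⟩
      change s _ = io σ _
      beta_reduce
      rw [← mul_div_mul_right _ _ ht, map_div₀, map_div₀, hy, hy])
    have := std z b hb
    exact ⟨0, _, _, this, fun f hf => e2 (this.le hf), by simpa using mem_EQ.mp (e2 this.mem)⟩
  · obtain ⟨η, b1, b2, b3⟩ := hN
    rw [zpow_natCast] at b3
    let F := EQ s (io σ) ⊓ EQ τ (io σ)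
    have hu : τ (η * t ^ N) = io σ (η * t ^ N) := by
      rw [map_mul, map_mul, map_pow, map_pow, b3, h6, mul_pow, inv_pow]; field_simp
    have hF : F ≤ K0 z := fun f hf => dz hτ z hf.2
    have hL : F ⊔ adjoin ℂ {η * t ^ N} ≤ K0 z := sup_le hF (adjoin_simple_le_iff.mpr (dz hτ z hu))
    refine ⟨N, F, η * t ^ N, ⟨tr s (fun f : F => f.2.1) (q := C η * (X + C t) ^ N) (by
      rwa [natDegree_C_mul b1, natDegree_pow, natDegree_X_add_C, mul_one]) (by
        rw [map_mul, map_mul, map_pow, map_pow, b2, h5, map_add, add_comm]; rfl), le_antisymm hL fun g hg => ?_⟩,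
      fun f hf => hf.1, by rwa [mul_div_cancel_right₀ _ (pow_ne_zero _ ht)]⟩
    set L := F ⊔ adjoin ℂ {η * t ^ N}
    have hS : L ⊔ adjoin ℂ {t} = ⊤ := by
      set S := L ⊔ adjoin ℂ {t}
      have mt : t ∈ S := (le_sup_right : _ ≤ L ⊔ _) (subset_adjoin _ _ rfl)
      have me : η ∈ S := by
        have : η * t ^ N ∈ S := (le_sup_left : L ≤ S) ((le_sup_right : _ ≤ F ⊔ _) (subset_adjoin _ _ rfl))
        simpa [ht] using div_mem this (pow_mem mt N)
      have m : ∀ c (d : ℤ), s c = io σ c → τ c = rr σ ^ d * io σ c → c ∈ S := fun c d c1 c2 => by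
        by_cases c0 : c = 0
        · exact c0 ▸ zero_mem _
        obtain ⟨k, rfl⟩ := hdv d ⟨c, c0, c1, c2⟩
        have : c * η ^ (-k) ∈ F := by
          refine ⟨show s _ = io σ _ by simp only [map_mul, map_zpow₀, c1, b2], show τ _ = io σ _ from ?_⟩
          rw [map_mul, map_mul, map_zpow₀, map_zpow₀, c2, b3, mul_zpow, ← zpow_natCast, ← zpow_mul, mul_neg,
            zpow_neg, mul_mul_mul_comm, mul_inv_cancel₀ (zpow_ne_zero _ hr), one_mul]
        simpa [zpow_ne_zero _ b1] using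
          mul_mem ((le_sup_left : L ≤ S) ((le_sup_left : F ≤ L) this)) (zpow_mem me k)
      have m' : ∀ p : (KK σ)[X], (∀ j, p.coeff j ∈ S) → p.eval t ∈ S := fun p hp => by
        rw [eval_eq_sum, sum_def]
        exact sum_mem fun j _ => mul_mem (hp j) (pow_mem mt _)
      refine top_of_x fun i => ?_
      rw [eq_div_of_mul_eq (a1 i) (a2 i).symm]
      exact div_mem (m' _ fun j => m _ _ (a3 i j).1 (a3 i j).2) (m' _ fun j => m _ _ (a4 i j).1 (a4 i j).2)
    have tt : Transcendental (K0 z) t := fun e => tr τ (S := K0 z) (y := t⁻¹) (fun f => onK0 hr hτ z f.2)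
      (q := C t⁻¹ * X) (by simp [ht]) (by
        rw [map_inv₀, h6, mul_inv, inv_inv, ← map_inv₀, map_mul, mul_comm]; rfl) e.inv
    by_cases g0 : g = 0
    · exact g0 ▸ zero_mem _
    have : g ∈ L ⊔ adjoin ℂ {t} := hS ▸ mem_top
    rw [← restrictScalars_adjoin_eq_sup, mem_restrictScalars, mem_adjoin_simple_iff] at this
    obtain ⟨A, B, e⟩ := this
    have hB : aeval t B ≠ 0 := fun e' => g0 (by rw [e, e', div_zero])
    let j : L →+* K0 z := (inclusion hL).toRingHom
    have ej : ∀ p : L[X], aeval t (p.map j) = aeval t p := fun p => by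
      rw [aeval_def, eval₂_map, aeval_def]; rfl
    have := transcendental_iff.mp tt (C ⟨g, hg⟩ * B.map j - A.map j) (by
      rw [map_sub, map_mul, ej, ej, aeval_C]
      change g * _ - _ = 0
      rw [e, div_mul_cancel₀ _ hB, sub_self])
    obtain ⟨k, hk⟩ : ∃ k, B.coeff k ≠ 0 := by
      by_contra! e
      exact hB (by rw [Polynomial.ext (q := 0) e, map_zero])
    have e3 := congrArg (fun p : (K0 z)[X] => (p.coeff k : KK σ)) (sub_eq_zero.mp this)
    simp only [coeff_C_mul, coeff_map] at e3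
    have e4 : g * (B.coeff k : KK σ) = A.coeff k := e3
    rw [eq_div_of_mul_eq (fun e' => hk (Subtype.ext e')) e4]
    exact div_mem (A.coeff k).2 (B.coeff k).2

end Pool.Agent.H.MP_956d6c_ag
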