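import Pool.Agent.H.MP_956d6c_ag.F
import Pool.Agent.H.MP_956d6c_ag.Defs

set_option autoImplicit false
open MvPolynomial Filter IntermediateField

namespace Pool.Agent.H.MP_956d6c_ag
variable {σ : Type} [Fintype σ] {s τ : KK σ →ₐ[ℂ] MM σ} {z : σ} {F F' : IntermediateField ℂ (KK σ)}
  {u u' : KK σ} {N N' : ℕ} {a a' : KK σ →ₐ[ℂ] KK σ}

/-- Conjugacy of substitutions. -/
def FC (τ : KK σ →ₐ[ℂ] MM σ) (a a' : KK σ →ₐ[ℂ] KK σ) : Prop :=
  ∃ θ θ' : KK σ →ₐ[ℂ] KK σ, (∀ f, θ (θ' f) = f) ∧ (∀ f, θ' (θ f) = f) ∧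
    (∀ i, τ (θ' (xx σ i)) = rr σ * io σ (θ' (xx σ i))) ∧ ∀ f, a' f = θ' (a (θ f))

/-- `a` is the substitution of `φ`. -/
def Pull (φ : RMap σ) (a : KK σ →ₐ[ℂ] KK σ) : Prop := ∀ i, a (xx σ i) = rm φ.P φ.Q (xx σ) i

theorem hom_iff (hτ : ∀ i, τ (xx σ i) = rr σ * io σ (xx σ i)) {θ : KK σ →ₐ[ℂ] KK σ}
    (h : ∀ i, τ (θ (xx σ i)) = rr σ * io σ (θ (xx σ i))) (d : ℕ) (f : KK σ) :
    τ (θ f) = rr σ ^ d * io σ (θ f) ↔ τ f = rr σ ^ d * io σ f := by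
  obtain ⟨Θ, e1, e2⟩ := rf_lift θ
  have : τ.comp θ = Θ.comp τ := hom_ext fun j => by
    change τ (θ (xx σ j)) = Θ (τ (xx σ j))
    rw [hτ, map_mul, e1, e2, h]
  have h : τ (θ f) = Θ (τ f) := DFunLike.congr_fun this f
  rw [h, show rr σ ^ d * io σ (θ f) = Θ (rr σ ^ d * io σ f) by rw [map_mul, map_pow, e1, e2]]
  exact Θ.injective.eq_iff

theorem FC.symm (hτ : ∀ i, τ (xx σ i) = rr σ * io σ (xx σ i)) (h : FC τ a a') : FC τ a' a := by
  obtain ⟨θ, θ', k1, k2, k3, k4⟩ := h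
  refine ⟨θ', θ, k2, k1, fun i => ?_, fun f => by rw [k4, k1, k1]⟩
  have := (hom_iff hτ k3 1 (θ (xx σ i))).mp (by rw [k2, hτ, pow_one])
  rwa [pow_one] at this

theorem FC.dvd (hτ : ∀ i, τ (xx σ i) = rr σ * io σ (xx σ i)) (h : FC τ a a') (h1 : Ad z F u)
    (h2 : Nm z N F u a) (h3 : Ad z F' u') (h4 : Nm z N' F' u' a') : N' ∣ N := by
  obtain ⟨θ, θ', k1, k2, k3, k4⟩ := h
  obtain ⟨f, f0, e1, e2⟩ := h2.eta hτ h1
  exact h4.dvd hτ h3 ((map_ne_zero θ').mpr f0) ((hom_iff hτ k3 _ _).mpr e1) (by rw [k4, k1, e2])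

theorem fc_iff (hτ : ∀ i, τ (xx σ i) = rr σ * io σ (xx σ i)) (h1 : Ad z F u)
    (h2 : Nm z N F u a) (h3 : Ad z F' u') (h4 : Nm z N' F' u' a') :
    FC τ a a' ↔ N = N' ∧ (N = 0 ∨ Nonempty (F ≃ₐ[ℂ] F')) := by
  constructor
  · intro h
    obtain rfl := Nat.dvd_antisymm ((h.symm hτ).dvd hτ h3 h4 h1 h2) (h.dvd hτ h1 h2 h3 h4)
    refine ⟨rfl, or_iff_not_imp_left.mpr fun hN => ?_⟩
    obtain ⟨θ, θ', k1, k2, k3, k4⟩ := h
    have e : ∀ f, θ' f ∈ F' ↔ f ∈ F := fun f => by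
      have := hom_iff hτ k3 0 f
      simp only [pow_zero, one_mul] at this
      rw [h2.fix hτ h1 hN, h4.fix hτ h3 hN, this, k4, k1]
      exact and_congr_right fun _ => θ'.injective.eq_iff
    refine ⟨(F.equivMap θ').trans (equivOfEq (IntermediateField.ext fun f => ⟨?_, fun hf => ?_⟩))⟩
    · rintro ⟨g, hg, rfl⟩
      exact (e g).mpr hg
    · exact ⟨θ f, (e _).mp (by rwa [k2]), k2 f⟩
  · rintro ⟨rfl, rfl | ⟨⟨e⟩⟩⟩
    · refine ⟨AlgHom.id _ _, AlgHom.id _ _, fun _ => rfl, fun _ => rfl, hτ, fun f => ?_⟩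
      have k : ∀ {F u a}, Ad z F u → Nm z 0 F u a → K0 z ≤ EQ a (AlgHom.id _ _) := fun h h' =>
        h.sub (fun f hf => h'.hF f hf) (by simpa [mem_EQ] using h'.hu)
      have : EQ a' a = ⊤ := top_K0 (fun f hf => (k h3 h4 hf).trans (k h1 h2 hf).symm) (h4.hz.trans h2.hz.symm)
      exact mem_EQ.mp (this ▸ mem_top)
    · obtain ⟨θ, e1, e2, e3⟩ := ext2 e h1.two h3.two h1.top h3.top
      refine ⟨θ.symm, θ, θ.symm_apply_apply, θ.apply_symm_apply, fun i => ?_, fun f => ?_⟩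
      · have : K0 z ≤ (K0 z).comap (θ : KK σ →ₐ[ℂ] KK σ) :=
          h1.sub (fun f hf => show θ f ∈ K0 z from (e1 ⟨f, hf⟩).symm ▸ h3.le (e ⟨f, hf⟩).2)
            (show θ u ∈ K0 z from e2.symm ▸ h3.mem)
        have m : θ (xx σ i / xx σ z) ∈ K0 z := this (y_mem z i)
        change τ (θ _) = _ * io σ (θ _)
        rw [← div_mul_cancel₀ (xx σ i) (xn z), map_mul, map_mul, map_mul, e3, hτ, onK0 rr_ne hτ z m]; ring
      · have : EQ (a'.comp θ) ((θ : KK σ →ₐ[ℂ] KK σ).comp a) = ⊤ := by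
          refine top_K0 (h1.sub (fun f hf => ?_) ?_) ?_
          · change a' (θ f) = θ (a f)
            rw [h2.hF f hf, e1 ⟨f, hf⟩, h4.hF _ (e ⟨f, hf⟩).2]
          · change a' (θ u) = θ (a u)
            rw [h2.hu, e2, h4.hu, map_mul, map_pow, map_add, map_one, e2, e3]
          · change a' (θ _) = θ (a _)
            rw [h2.hz, e3, h4.hz, map_div₀, map_add, map_one, e3]
        have := mem_EQ.mp (this.ge (IntermediateField.mem_top (x := θ.symm f)))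
        simpa using this

theorem Pull.rp {φ : RMap σ} (h : Pull φ a) {ι : Type} {v : σ → KK ι} {V : (ι → ℂ) → σ → ℂ}
    (hv : ∀ i, Rp (v i) fun p => V p i) (i : σ) : Rp (rm φ.P φ.Q v i) fun p => φ.ev (V p) i :=
  Rp.rm hv _ _ i

theorem rp_ev (φ : RMap σ) {ι : Type} {v : σ → KK ι} {V : (ι → ℂ) → σ → ℂ}
    (hv : ∀ i, Rp (v i) fun p => V p i) (i : σ) : Rp (rm φ.P φ.Q v i) fun p => φ.ev (V p) i :=
  Rp.rm hv _ _ i

theorem rp_reg (φ : RMap σ) {ι : Type} {θ : KK σ →ₐ[ℂ] KK ι} {V : (ι → ℂ) → σ → ℂ}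
    (hv : ∀ i, Rp (θ (xx σ i)) fun p => V p i) : ∀ᶠ p in gen ι, φ.Reg (V p) :=
  (Rp.aev hv φ.Q).ne (aev_ne θ φ.hQ)

theorem ex_pull (a : KK σ →ₐ[ℂ] KK σ) : ∃ φ, Pull φ a := by
  obtain ⟨L, E, hE, hL⟩ := cden fun i => a (xx σ i)
  exact ⟨⟨L, E, hE⟩, hL⟩

theorem Pull.comp {φ : RMap σ} (h : Pull φ a) {Ω : Type} [Field Ω] [Algebra ℂ Ω] (θ : KK σ →ₐ[ℂ] Ω) (i : σ) :
    θ (a (xx σ i)) = rm φ.P φ.Q (fun j => θ (xx σ j)) i := by rw [h, map_rm]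

theorem conj_of (hτ : ∀ i, τ (xx σ i) = rr σ * io σ (xx σ i)) {φ ψ : RMap σ} (h1 : Pull φ a) (h2 : Pull ψ a')
    (h : FC τ a a') : Conj φ ψ := by
  obtain ⟨θ, θ', k1, k2, k3, k4⟩ := h
  obtain ⟨l, hl⟩ := ex_pull θ'
  obtain ⟨m, hm⟩ := ex_pull θ
  have r0 : ∀ i, Rp (AlgHom.id ℂ (KK σ) (xx σ i)) fun p => p i := Rp.x
  have rL : ∀ i, Rp (θ' (xx σ i)) fun p => l.ev p i := fun i => hl i ▸ rp_ev l Rp.x i
  have rM : ∀ i, Rp (θ (xx σ i)) fun p => m.ev p i := fun i => hm i ▸ rp_ev m Rp.x i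
  have rP : ∀ i, Rp ((θ'.comp a) (xx σ i)) fun p => φ.ev (l.ev p) i := fun i => by
    rw [AlgHom.comp_apply, h1.comp]; exact rp_ev φ rL i
  have m1 := eventually_all.mpr fun i => (rp_ev m rL i).eq (g' := fun p => p i) (by
    rw [← hm.comp, k2]; exact Rp.x i)
  have m2 := eventually_all.mpr fun i => (rp_ev l rM i).eq (g' := fun p => p i) (by
    rw [← hl.comp, k1]; exact Rp.x i)
  have m3 := eventually_all.mpr fun i => (rp_ev ψ Rp.x i).eq (g' := fun p => m.ev (φ.ev (l.ev p)) i) (by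
    rw [← h2, k4, ← AlgHom.comp_apply θ' a, hm.comp]; exact rp_ev m rP i)
  refine ⟨l, m, gen_open ?_, gen_open ?_, ⟨{q | l.Reg q.1 ∧ l.Reg (q.2 • q.1)}, ?_, ?_,
    fun q hq => ⟨hq.1, hq.2, funext fun i => ?_⟩⟩, gen_open ?_⟩
  · filter_upwards [rp_reg l r0, rp_reg m rL, m1] with p a b c using ⟨a, b, funext c⟩
  · filter_upwards [rp_reg m r0, rp_reg l rM, m2] with p a b c using ⟨a, b, funext c⟩
  · have c := MvPolynomial.continuous_eval l.Q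
    exact (isOpen_ne_fun (c.comp continuous_fst) continuous_const).inter
      (isOpen_ne_fun (c.comp (continuous_snd.smul continuous_fst)) continuous_const)
  · obtain ⟨U, -, ⟨p, hp⟩, h⟩ := gen_open (rp_reg l r0)
    exact ⟨(p, 1), h p hp, by simpa using h p hp⟩
  · have := homog hτ l.hQ (L := l.P) (i := i) (hl i ▸ k3 i) q.1 q.2
    rw [Pi.smul_apply, smul_eq_mul, RMap.ev, RMap.ev, ← mul_div_assoc, div_eq_div_iff hq.2 hq.1]
    exact this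
  · filter_upwards [rp_reg ψ r0, rp_reg l r0, rp_reg φ rL, rp_reg m rP, m3] with p a b c d e
      using ⟨a, b, c, d, funext e⟩

omit [Fintype σ] in
theorem rm_mem {S : IntermediateField ℂ (KK σ)} {v : σ → KK σ} (h : ∀ i, v i ∈ S) (P : σ → RR σ) (Q : RR σ)
    (i : σ) : rm P Q v i ∈ S := by
  have : ∀ G : RR σ, aeval v G ∈ S := fun G => by
    induction G using MvPolynomial.induction_on with
    | C r => simp
    | add p q hp hq => rw [map_add]; exact add_mem hp hq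
    | mul_X p i hp => rw [map_mul, aeval_X]; exact mul_mem hp (h i)
  exact div_mem (this _) (this _)

theorem of_conj (hτ : ∀ i, τ (xx σ i) = rr σ * io σ (xx σ i)) {φ ψ : RMap σ} (h1 : Pull φ a) (h2 : Pull ψ a')
    (h : Conj φ ψ) : FC τ a a' := by
  obtain ⟨l, m, ⟨U1, o1, n1, c1⟩, -, ⟨U3, o3, n3, c3⟩, U4, o4, n4, c4⟩ := h
  have rL := rp_ev l (Rp.x (σ := σ))
  have e1 : ∀ i, rm m.P m.Q (rm l.P l.Q (xx σ)) i = xx σ i := fun i =>
    (rp_ev m rL i).eq_of_open (Rp.x i) o1 n1 fun p hp => congrFun (c1 p hp).2.2 i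
  obtain ⟨θ', θ, hl, k2, k1⟩ := gen_equiv (rm l.P l.Q (xx σ)) fun i =>
    e1 i ▸ rm_mem (fun j => subset_adjoin _ _ (Set.mem_range_self j)) _ _ i
  have hm : Pull m θ := fun i => θ'.injective (by
    change θ' _ = θ' _
    rw [k2, map_rm, funext hl, e1])
  refine ⟨θ, θ', k1, k2, fun i => ?_, fun f => ?_⟩
  · obtain ⟨o, ho⟩ := lift_hom _ (ind_opt (xx_ind (σ := σ)))
    have S := Rp.x (σ := Option σ) none
    have := (rp_ev l (V := fun p => p none • fun j => p (some j)) (fun j => S.mul (Rp.x (some j))) i).eq_of_open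
      (S.mul (rp_ev l (V := fun p j => p (some j)) (fun j => Rp.x (some j)) i))
      (V := (fun p : Option σ → ℂ => ((fun j => p (some j)), p none)) ⁻¹' U3) (o3.preimage (by fun_prop))
      (by obtain ⟨q, hq⟩ := n3; exact ⟨fun o => o.elim q.2 q.1, hq⟩)
      fun p hp => congrFun (c3 _ hp).2.2 i
    have := congrArg o this
    simp only [map_rm, map_mul, ho, Option.elim] at this
    rw [hl, map_rm, map_rm]
    simp only [hτ]
    exact this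
  · have : a' = θ'.comp (a.comp θ) := hom_ext fun i => by
      rw [h2, ← AlgHom.comp_assoc, AlgHom.comp_apply, hm.comp]
      simp only [AlgHom.comp_apply, h1.comp, hl]
      exact (rp_ev ψ Rp.x i).eq_of_open (rp_ev m (rp_ev φ rL) i) o4 n4 fun p hp => congrFun (c4 p hp).2.2.2.2 i
    rw [this]; rfl

theorem fin1 {φ : RMap σ} (hτ : ∀ i, τ (xx σ i) = rr σ * io σ (xx σ i))
    (hs : ∀ i, s (xx σ i) = (rr σ)⁻¹ * rm φ.P φ.Q (fun j => rr σ * io σ (xx σ j)) i) {t : KK σ}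
    (h5 : s t = io σ t + rr σ) (h6 : τ t = (rr σ)⁻¹ * io σ t) (h : Ad z F u) (hn : Nm z N F u a')
    (h1 : ∀ f ∈ F, s f = io σ f) (h2 : s (u / t ^ N) = io σ (u / t ^ N)) : ∃ a, Pull φ a ∧ FC τ a a' := by
  have hr := rr_ne (σ := σ)
  have ht : t ≠ 0 := by
    rintro rfl
    rw [map_zero, map_zero, zero_add] at h5
    exact hr h5.symm
  have ht1 : io σ t ≠ 0 := (map_ne_zero _).mpr ht
  have ht2 : io σ t + rr σ ≠ 0 := h5 ▸ (map_ne_zero _).mpr ht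
  have x0 := xn z
  obtain ⟨θ, θ', hθ, k1, k2⟩ := gen_equiv (fun i => xx σ i / xx σ z / t) fun i => by
    set S := adjoin ℂ (Set.range fun i => xx σ i / xx σ z / t)
    have h : ∀ i, xx σ i / xx σ z / t ∈ S := fun i => subset_adjoin _ _ ⟨i, rfl⟩
    have h0 : t ∈ S := by simpa [x0] using inv_mem (h z)
    have h3 : K0 z ≤ S := adjoin_le_iff.mpr (by
      rintro _ ⟨i, rfl⟩
      simpa [ht] using mul_mem (h i) h0)
    refine top_K0 h3 ?_ ▸ mem_top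
    simpa [ht] using div_mem (h3 (dz hτ z (f := xx σ z * t) (by
      rw [map_mul, map_mul, hτ, h6]; field_simp))) h0
  have θ0 : ∀ f ∈ K0 z, θ f = f := fun f hf => onK0 (b := AlgHom.id _ _) (c := (xx σ z * t)⁻¹)
    (inv_ne_zero (mul_ne_zero x0 ht)) (fun i => by rw [hθ, AlgHom.id_apply]; field_simp) z hf
  have θz : θ (xx σ z) = t⁻¹ := by rw [hθ, div_self x0, one_div]
  have hv : ∀ i, τ (θ (xx σ i)) = rr σ * io σ (θ (xx σ i)) := fun i => by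
    rw [hθ, map_div₀, map_div₀ (io σ), onK0 hr hτ z (y_mem z i), h6]; field_simp
  have hw : ∀ i, τ (θ' (xx σ i)) = rr σ * io σ (θ' (xx σ i)) := fun i => by
    have := (hom_iff hτ hv 1 (θ' (xx σ i))).mp (by rw [k1, hτ, pow_one])
    rwa [pow_one] at this
  have e2 : τ (θ (1 + xx σ z)) = (io σ t + rr σ) / io σ t := by
    rw [map_add, map_add, θz, map_one, map_one, map_inv₀, h6]; field_simp
  have e0 : K0 z ≤ EQ ((τ.comp θ).comp a') s := by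
    refine h.sub (fun f hf => ?_) ?_
    · change τ (θ (a' f)) = s f
      rw [hn.hF f hf, θ0 f (h.le hf), h1 f hf, onK0 hr hτ z (h.le hf)]
    · change τ (θ (a' u)) = s u
      rw [map_div₀, map_div₀, map_pow, map_pow, h5, div_eq_iff (pow_ne_zero _ ht2)] at h2
      rw [hn.hu, map_mul, map_mul, map_pow, map_pow, e2, θ0 u h.mem, onK0 hr hτ z h.mem, h2, div_pow]
      ring
  have e : ∀ j, τ (θ (a' (xx σ j))) = rr σ * s (θ (xx σ j)) := fun j => by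
    have e3 : τ (θ (a' (xx σ j / xx σ z))) = s _ := e0 (y_mem z j)
    rw [← div_mul_cancel₀ (xx σ j) x0, map_mul, map_mul, map_mul, map_mul, map_mul, e3, θ0 _ (y_mem z j), hn.hz,
      map_div₀ θ, map_div₀ τ, e2, θz, map_inv₀, map_inv₀, h5, h6]
    field_simp
  refine ⟨θ.comp (a'.comp θ'), fun i => τ.injective ?_, θ, θ', k1, k2, hw, fun f => by
    simp only [AlgHom.comp_apply, k2]⟩
  obtain ⟨l, hl⟩ := ex_pull θ'
  have hH := @homog _ _ τ hτ l.P l.Q l.hQ i (hl i ▸ hw i)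
  change τ (θ (a' (θ' _))) = τ _
  have a1 : ((τ.comp θ).comp a') (θ' (xx σ i)) = rm l.P l.Q (fun j => rr σ * s (θ (xx σ j))) i := by
    rw [hl.comp]; simp only [← e, AlgHom.comp_apply]
  have a2 : τ (rm φ.P φ.Q (xx σ) i) = rr σ * (s.comp θ) (θ' (xx σ i)) := by
    rw [map_rm]
    simp only [AlgHom.comp_apply, k1, hτ, hs]
    rw [mul_inv_cancel_left₀ hr]
  have b1 := aev_ne ((τ.comp θ).comp a') l.hQ
  simp only [AlgHom.comp_apply, e] at b1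
  refine a1.trans ?_
  rw [a2, hl.comp, rm, rm, ← mul_div_assoc, div_eq_div_iff b1 (aev_ne (s.comp θ) l.hQ)]
  exact hH _ _

theorem exhaust (z b : σ) (hb : b ≠ z) {φ : RMap σ} (hf : IsFlow φ) (hn : ¬ ∀ i, φ.P i = X i * φ.Q) :
    ∃ (N : ℕ) (F : IntermediateField ℂ (KK σ)) (u : KK σ) (ψ : RMap σ) (a : KK σ →ₐ[ℂ] KK σ),
      Ad z F u ∧ Pull ψ a ∧ Nm z N F u a ∧ Conj φ ψ := by
  obtain ⟨⟨V, hV, hne, hT⟩, U, hU, hUne, hB⟩ := hf
  obtain ⟨a, b', h⟩ := bdry (P := φ.P) φ.hQ hU hUne hB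
  obtain ⟨s, hs⟩ := ex_s h
  obtain ⟨τ, hτ⟩ := ex_tau (σ := σ)
  obtain ⟨t, h5, h6, hd⟩ := gens h hn (sm_of h hτ hs fun v hv i =>
    transl (Φ := φ.ev) (fun _ => rfl) hV hne (fun q hq => ⟨(hT q hq).1, (hT q hq).2.2.2.2⟩) hv i)
  obtain ⟨N, F, u, h1, h2, h3⟩ := core hτ z b hb h5 h6 hd
  obtain ⟨c, hc⟩ := h1.ex N
  obtain ⟨ψ, hψ⟩ := ex_pull (c : KK σ →ₐ[ℂ] KK σ)
  obtain ⟨c', k1, k2⟩ := fin1 hτ hs h5 h6 h1 hc h2 h3
  exact ⟨N, F, u, ψ, c, h1, hψ, hc, conj_of hτ k1 hψ k2⟩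

end Pool.Agent.H.MP_956d6c_ag
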