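import Pool.Agent.H.MP_956d6c_ag.G

set_option autoImplicit false
open MvPolynomial Filter IntermediateField Topology

namespace Pool.Agent.H.MP_956d6c_ag
variable {σ : Type} [Fintype σ] {s τ : KK σ →ₐ[ℂ] MM σ} {z : σ} {F F' : IntermediateField ℂ (KK σ)}
  {u u' : KK σ} {N N' : ℕ} {a a' : KK σ →ₐ[ℂ] KK σ}

theorem Nm.transl (h : Ad z F u) (hn : Nm z N F u a) {φ : RMap σ} (hp : Pull φ a) :
    Gen (fun q : (σ → ℂ) × ℂ => q.2 ≠ 0 ∧ φ.Reg q.1 ∧ φ.Reg (q.2 • q.1) ∧
      φ.Reg (((1 - q.2) / q.2) • φ.ev (q.2 • q.1)) ∧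
      (1 - q.2) • φ.ev q.1 = φ.ev (((1 - q.2) / q.2) • φ.ev (q.2 • q.1))) := by
  have hr := rr_ne (σ := σ)
  have t1 : Transcendental (KK σ) (rr σ)⁻¹ := fun e => rr_tr (by simpa using e.inv)
  have t2 : Transcendental (KK σ) ((1 - rr σ) / rr σ) := fun e => t1 (by
    have := e.add (isAlgebraic_one (R := KK σ) (A := MM σ))
    rwa [show (1 - rr σ) / rr σ + 1 = (rr σ)⁻¹ by field_simp; ring] at this)
  have c0 : (1 - rr σ) / rr σ ≠ 0 := fun e => t2 (e ▸ isAlgebraic_zero)
  obtain ⟨j, hj⟩ := scale (AlgHom.id _ _) t1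
  obtain ⟨c, hc⟩ := scale a t2
  simp only [AlgHom.id_apply] at hj
  have j0 := fun f => onK0 (inv_ne_zero hr) hj z (f := f)
  have k0 := fun f => onK0 (b := (io σ).comp a) c0 hc z (f := f)
  have w0 : 1 + io σ (xx σ z) ≠ 0 := by simpa using (map_ne_zero (io σ)).mpr (x1_ne z)
  have w1 : 1 + (rr σ)⁻¹ * io σ (xx σ z) ≠ 0 := by simpa [hj] using (map_ne_zero j).mpr (x1_ne z)
  have w2 : rr σ + io σ (xx σ z) ≠ 0 := fun e => w1 (by
    rw [eq_neg_of_add_eq_zero_right e]; field_simp; ring)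
  have cz : 1 + c (xx σ z) = (rr σ + io σ (xx σ z)) / (rr σ * (1 + io σ (xx σ z))) := by
    rw [hc, hn.hz, map_div₀, map_add, map_one]; field_simp; ring
  have e0 : K0 z ≤ EQ (c.comp a) (j.comp a) := by
    refine h.sub (fun f hf => ?_) ?_
    · change c (a f) = j (a f)
      rw [hn.hF f hf, k0 f (h.le hf), j0 f (h.le hf), AlgHom.comp_apply, hn.hF f hf]
    · change c (a u) = j (a u)
      rw [hn.hu, map_mul, map_mul, map_pow, map_pow, map_add, map_add, map_one, map_one, cz, hj, k0 u h.mem,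
        j0 u h.mem, AlgHom.comp_apply, hn.hu, map_mul, map_pow, map_add, map_one, mul_assoc, ← mul_pow]
      congr 2
      field_simp
  have e : ∀ i, (1 - rr σ) * j (a (xx σ i)) = c (a (xx σ i)) := fun i => by
    have e3 : c (a (xx σ i / xx σ z)) = j (a _) := e0 (y_mem z i)
    rw [← div_mul_cancel₀ (xx σ i) (xn z), map_mul, map_mul, map_mul, e3, hn.hz, map_div₀ c, map_div₀ j,
      map_add, map_add, map_one, map_one, cz, hc, hj, hn.hz, map_div₀ (io σ), map_add, map_one]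
    field_simp
  obtain ⟨o, ho⟩ := lift_hom _ (ind_opt (xx_ind (σ := σ)))
  have o1 : o (xx _ none) = rr σ := ho none
  have o2 : ∀ i, o (xx _ (some i)) = io σ (xx σ i) := fun i => ho (some i)
  have S := Rp.x (σ := Option σ) none
  have Y := fun i => Rp.x (σ := Option σ) (some i)
  have r1 := fun i => S.inv.mul (Y i)
  have r2 := fun i => ((Rp.one.sub S).div S).mul (rp_ev φ (V := fun p i => p (some i)) Y i)
  have nz : ∀ (v : σ → KK (Option σ)) (b : KK σ →ₐ[ℂ] MM σ), (∀ i, o (v i) = b (xx σ i)) → aeval v φ.Q ≠ 0 :=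
    fun v b hb e => aev_ne b φ.hQ (by rw [← funext hb, ← map_aev, e, map_zero])
  have i2 : ∀ i, o ((1 - xx _ none) / xx _ none * rm φ.P φ.Q (fun i => xx _ (some i)) i) = c (xx σ i) := fun i => by
    rw [hc, hp.comp, map_mul, map_div₀, map_sub, map_one, o1, map_rm, funext o2]
  have i1 : ∀ i, o ((xx _ none)⁻¹ * xx _ (some i)) = j (xx σ i) := fun i => by
    rw [hj, map_mul, map_inv₀, o1, o2]
  have n0 := S.ne (xn none)
  have n1 := (Rp.aev r1 φ.Q).ne (nz _ j i1)
  have n2 := (Rp.aev (V := fun p i => p (some i)) Y φ.Q).ne (nz _ _ o2)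
  have n3 := (Rp.aev r2 φ.Q).ne (nz _ c i2)
  have n4 := eventually_all.mpr fun i => ((Rp.one.sub S).mul (rp_ev φ r1 i)).eq (by
    have : (1 - xx _ none) * rm φ.P φ.Q (fun i => (xx _ none)⁻¹ * xx _ (some i)) i = rm φ.P φ.Q (fun i =>
        (1 - xx _ none) / xx _ none * rm φ.P φ.Q (fun i => xx (Option σ) (some i)) i) i := o.injective (by
      change o _ = o _
      rw [map_mul, map_sub, map_one, o1, map_rm, map_rm, funext i1, funext i2, ← hp.comp, ← hp.comp, e])
    rw [this]; exact rp_ev φ r2 i)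
  obtain ⟨U, hU, ⟨p, hp⟩, H⟩ := gen_open (n0.and (n1.and (n2.and (n3.and n4))))
  refine ⟨(fun q : (σ → ℂ) × ℂ => fun o : Option σ => o.elim q.2 (q.2 • q.1)) ⁻¹' U, hU.preimage ?_,
    ⟨(fun i => (p none)⁻¹ * p (some i), p none), ?_⟩, fun q hq => ?_⟩
  · refine continuous_pi fun o => ?_
    cases o <;> simp only [Option.elim] <;> fun_prop
  · have := (H p hp).1
    rw [Set.mem_preimage]
    convert hp using 1
    funext o
    cases o <;> simp [this]
  · obtain ⟨b0, b1, b2, b3, b4⟩ := H _ hq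
    simp only [Option.elim] at b0 b1 b2 b3 b4
    have e : (fun i => q.2⁻¹ * (q.2 • q.1) i) = q.1 := by funext i; simp [b0]
    rw [e] at b1 b4
    exact ⟨b0, b1, b2, b3, funext b4⟩

/-- Regular at the origin with a given value. -/
def Vl (f : MM σ) (c : KK σ) : Prop :=
  ∃ α β : Polynomial (KK σ), β.coeff 0 ≠ 0 ∧ f * algebraMap _ _ β = algebraMap _ _ α ∧ α.coeff 0 = c * β.coeff 0

section
omit [Fintype σ]
theorem Vl.poly (α : Polynomial (KK σ)) : Vl (algebraMap _ _ α) (α.coeff 0) := ⟨α, 1, by simp, by simp, by simp⟩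

theorem Vl.const (c : KK σ) : Vl (io σ c) c := by
  have := Vl.poly (Polynomial.C c)
  rwa [Polynomial.coeff_C_zero] at this

theorem Vl.add {f g : MM σ} {c d : KK σ} (h : Vl f c) (h' : Vl g d) : Vl (f + g) (c + d) := by
  obtain ⟨α, β, h1, h2, h3⟩ := h
  obtain ⟨α', β', h4, h5, h6⟩ := h'
  refine ⟨α * β' + α' * β, β * β', by simp [h1, h4], ?_, ?_⟩
  · rw [map_add, map_mul, map_mul, map_mul, ← h2, ← h5]; ring
  · simp only [Polynomial.coeff_add, Polynomial.mul_coeff_zero, h3, h6]; ring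

theorem Vl.mul {f g : MM σ} {c d : KK σ} (h : Vl f c) (h' : Vl g d) : Vl (f * g) (c * d) := by
  obtain ⟨α, β, h1, h2, h3⟩ := h
  obtain ⟨α', β', h4, h5, h6⟩ := h'
  refine ⟨α * α', β * β', by simp [h1, h4], ?_, ?_⟩
  · rw [map_mul, map_mul, ← h2, ← h5]; ring
  · simp only [Polynomial.mul_coeff_zero, h3, h6]; ring

theorem Vl.inv {f : MM σ} {c : KK σ} (h : Vl f c) (hc : c ≠ 0) : Vl f⁻¹ c⁻¹ := by
  obtain ⟨α, β, h1, h2, h3⟩ := h
  have a0 : α.coeff 0 ≠ 0 := h3 ▸ mul_ne_zero hc h1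
  have f0 : f ≠ 0 := fun e => a0 (by
    rw [e, zero_mul, eq_comm, map_eq_zero_iff _ (IsFractionRing.injective _ _)] at h2
    simp [h2])
  exact ⟨β, α, a0, by rw [← h2, inv_mul_cancel_left₀ f0], by rw [h3, inv_mul_cancel_left₀ hc]⟩

theorem Vl.pow {f : MM σ} {c : KK σ} (h : Vl f c) (n : ℕ) : Vl (f ^ n) (c ^ n) := by
  induction n with
  | zero => simpa using Vl.const (σ := σ) 1
  | succ n ih => simpa only [pow_succ] using ih.mul h
end

theorem Nm.vl (hτ : ∀ i, τ (xx σ i) = rr σ * io σ (xx σ i)) (h : Ad z F u) (hn : Nm z N F u a) (i : σ) :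
    Vl ((rr σ)⁻¹ * τ (a (xx σ i))) (xx σ i) := by
  have hr := rr_ne (σ := σ)
  let S : IntermediateField ℂ (KK σ) :=
    { carrier := {g | Vl (τ (a g)) g}
      mul_mem' := fun h1 h2 => by simpa only [Set.mem_ofPred_eq, map_mul] using Vl.mul h1 h2
      add_mem' := fun h1 h2 => by simpa only [Set.mem_ofPred_eq, map_add] using Vl.add h1 h2
      algebraMap_mem' := fun c => by
        simpa only [Set.mem_ofPred_eq, AlgHom.commutes] using Vl.const (algebraMap ℂ (KK σ) c)
      inv_mem' := fun g hg => by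
        by_cases g0 : g = 0
        · simpa only [g0, inv_zero] using hg
        · simpa only [Set.mem_ofPred_eq, map_inv₀] using Vl.inv hg g0 }
  have w : Vl (τ (1 + xx σ z)) 1 := by
    have := Vl.poly (Polynomial.C (xx σ z) * Polynomial.X + Polynomial.C 1)
    have e : Polynomial.coeff (Polynomial.C (xx σ z) * Polynomial.X + Polynomial.C 1) 0 = 1 := by simp
    rwa [← tw hτ, e] at this
  have e0 : K0 z ≤ S := by
    refine h.sub (fun f hf => ?_) ?_
    · change Vl (τ (a f)) f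
      rw [hn.hF f hf, onK0 hr hτ z (h.le hf)]; exact Vl.const f
    · change Vl (τ (a u)) u
      rw [hn.hu, map_mul, map_pow, onK0 hr hτ z h.mem]
      simpa only [one_pow, mul_one] using (Vl.const u).mul (w.pow N)
  have e1 : Vl (τ (a (xx σ i / xx σ z))) (xx σ i / xx σ z) := e0 (y_mem z i)
  have := (e1.mul (Vl.const (xx σ z))).mul (w.inv one_ne_zero)
  rw [div_mul_cancel₀ _ (xn z), inv_one, mul_one] at this
  convert this using 1
  conv_lhs => rw [← div_mul_cancel₀ (xx σ i) (xn z), map_mul, map_mul, hn.hz, map_div₀ τ, hτ]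
  field_simp

theorem Nm.bdry (h : Ad z F u) (hn : Nm z N F u a) {φ : RMap σ} (hp : Pull φ a) :
    Gen (fun p : σ → ℂ => Tendsto (fun c : ℂ => c⁻¹ • φ.ev (c • p)) (𝓝[≠] 0) (𝓝 p)) := by
  obtain ⟨τ, hτ⟩ := ex_tau (σ := σ)
  obtain ⟨Q1, h1, h2⟩ := Polynomial.exists_eq_pow_rootMultiplicity_mul_and_not_dvd (SS φ.Q)
    (fun h => φ.hQ (by rw [← SS_one φ.Q, h, Polynomial.eval_zero])) 0
  generalize (SS φ.Q).rootMultiplicity 0 = e at h1
  rw [map_zero, sub_zero] at h1 h2
  rw [Polynomial.X_dvd_iff] at h2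
  let j := algebraMap (RR σ) (KK σ)
  have hj : Function.Injective j := IsFractionRing.injective _ _
  have e3 : ∀ G : RR σ, τ (aeval (xx σ) G) = algebraMap _ (MM σ) ((SS G).map j) := fun G => by
    rw [map_aev, funext hτ, ← SS_ev, ← ev_io, ev, Polynomial.eval₂_map]
    congr 1
    exact RingHom.ext fun G => by
      change aeval _ G = io σ (algebraMap (RR σ) (KK σ) G)
      rw [← aev_xx, map_aev]
  have key : ∀ i, ∃ A : Polynomial (RR σ), SS (φ.P i) = Polynomial.X ^ (e + 1) * A ∧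
      A.coeff 0 = X i * Q1.coeff 0 := fun i => by
    obtain ⟨α, β, b1, b2, b3⟩ := hn.vl hτ h i
    have q0 : algebraMap _ (MM σ) ((SS φ.Q).map j) ≠ 0 :=
      e3 φ.Q ▸ (map_ne_zero τ).mpr (aev_ne (AlgHom.id _ _) φ.hQ)
    rw [hp, rm, map_div₀, e3, e3, mul_assoc, inv_mul_eq_iff_eq_mul₀ rr_ne, div_mul_eq_mul_div,
      div_eq_iff q0, rr, ← map_mul, ← map_mul, ← map_mul, (IsFractionRing.injective _ _).eq_iff, h1,
      Polynomial.map_mul, Polynomial.map_pow, Polynomial.map_X] at b2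
    have d1 : Polynomial.X ^ (e + 1) ∣ (SS (φ.P i)).map j :=
      (IsCoprime.pow_left (Polynomial.irreducible_X.coprime_iff_not_dvd.mpr
        (mt Polynomial.X_dvd_iff.mp b1))).dvd_of_dvd_mul_right ⟨α * Q1.map j, by rw [b2]; ring⟩
    obtain ⟨A, hA⟩ := (Polynomial.X_pow_dvd_iff (f := SS (φ.P i)) (n := e + 1)).mpr fun k hk => hj (by
      simpa using Polynomial.X_pow_dvd_iff.mp d1 k hk)
    refine ⟨A, hA, hj ?_⟩
    rw [hA, Polynomial.map_mul, Polynomial.map_pow, Polynomial.map_X] at b2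
    have b4 : A.map j * β = α * Q1.map j :=
      mul_left_cancel₀ (pow_ne_zero (e + 1) Polynomial.X_ne_zero) (by rw [← mul_assoc, b2]; ring)
    have := congrArg (Polynomial.coeff · 0) b4
    simp only [Polynomial.mul_coeff_zero, Polynomial.coeff_map, b3] at this
    rw [map_mul]
    refine mul_right_cancel₀ b1 (this.trans ?_)
    rw [mul_right_comm]; rfl
  choose A hA hA' using key
  refine ⟨{p | eval p (Q1.coeff 0) ≠ 0}, isOpen_ne_fun (MvPolynomial.continuous_eval _) continuous_const, ?_,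
    fun p hp => tendsto_pi_nhds.mpr fun i => ?_⟩
  · by_contra h
    exact h2 (MvPolynomial.funext fun x => by_contra fun h' => h ⟨x, by simpa using h'⟩)
  · have c : ∀ B : Polynomial (RR σ),
        Tendsto (fun z => (B.map (eval p)).eval z) (𝓝[≠] 0) (𝓝 (eval p (B.coeff 0))) := fun B => by
      have := (B.map (eval p)).continuous.tendsto 0
      rw [← Polynomial.coeff_zero_eq_eval_zero, Polynomial.coeff_map] at this
      exact this.mono_left nhdsWithin_le_nhds
    have := (c (A i)).div (c Q1) hp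
    rw [hA', map_mul, eval_X, mul_div_cancel_right₀ _ hp] at this
    refine this.congr' ?_
    filter_upwards [self_mem_nhdsWithin, (c Q1).eventually_ne hp] with z hz h3
    have : z ≠ 0 := hz
    simp only [Pi.div_apply, Pi.smul_apply, smul_eq_mul, RMap.ev, ← SS_eval, h1, hA, Polynomial.map_mul,
      Polynomial.eval_mul, Polynomial.map_pow, Polynomial.map_X, Polynomial.eval_pow, Polynomial.eval_X]
    field_simp; ring

omit [Fintype σ] in
theorem pull_id : Pull (RMap.id σ) (AlgHom.id _ _) := fun i => by simp [rm, RMap.id]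

theorem Nm.not_id (hn : Nm z N F u a) {φ : RMap σ} (hp : Pull φ a) : ¬ Conj φ (RMap.id σ) := fun hc => by
  obtain ⟨τ, hτ⟩ := ex_tau (σ := σ)
  obtain ⟨θ, θ', k1, k2, -, k4⟩ := of_conj hτ hp pull_id hc
  have := congrArg θ (k4 (θ' (xx σ z)))
  rw [AlgHom.id_apply, k1, k1, hn.hz, eq_div_iff (x1_ne z)] at this
  exact xn z (by simpa [mul_add, xn z] using this)

theorem Nm.expl [DecidableEq σ] {b : σ} (hb : b ≠ z)
    (hn : Nm z N (adjoin ℂ ((fun i => xx σ i / xx σ z) '' {i | i ≠ b ∧ i ≠ z})) (xx σ b / xx σ z) a)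
    {φ : RMap σ} (hp : Pull φ a) : Gen fun p => φ.Reg p ∧ 1 + p z ≠ 0 ∧
      φ.ev p = fun i => if i = b then p b * (1 + p z) ^ ((N : ℤ) - 1) else p i / (1 + p z) := by
  have w := Rp.one.add (Rp.x z)
  have w0 := x1_ne z
  have m := eventually_all.mpr fun i => (rp_ev φ Rp.x i).eq
    (g' := fun p => if i = b then p b * (1 + p z) ^ ((N : ℤ) - 1) else p i / (1 + p z)) (by
      rw [← hp, ← div_mul_cancel₀ (xx σ i) (xn z), map_mul, hn.hz]
      by_cases e : i = b
      · simp only [e, if_true, hn.hu]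
        convert (Rp.x b).mul (w.zpow ((N : ℤ) - 1)) using 1
        rw [zpow_sub_one₀ w0, zpow_natCast]
        have := xn z
        field_simp
      · simp only [e, if_false]
        convert (Rp.x i).div w using 1
        by_cases e' : i = z
        · simp [e', xn z]
        · rw [hn.hF _ (subset_adjoin _ _ ⟨i, ⟨e, e'⟩, rfl⟩)]
          have := xn z
          field_simp)
  refine gen_open ?_
  filter_upwards [rp_reg φ (θ := AlgHom.id _ _) Rp.x, w.ne w0, m] with p a b c using ⟨a, b, funext c⟩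

end Pool.Agent.H.MP_956d6c_ag
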