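import Pool.Agent.H.MP_956d6c_ag.H

set_option autoImplicit false
open IntermediateField

namespace Pool.Agent.H.MP_956d6c_ag

theorem K0_equiv {σ : Type} [Fintype σ] (z : σ) : Nonempty (KK {i // i ≠ z} ≃ₐ[ℂ] K0 z) := by
  classical
  let v : σ → KK σ := fun i => if i = z then xx _ z else xx _ i / xx _ z
  obtain ⟨θ, -, hθ, -⟩ := gen_equiv v fun i => by
    have m : ∀ j, v j ∈ adjoin ℂ (Set.range v) := fun j => subset_adjoin _ _ ⟨j, rfl⟩
    have mz : xx _ z ∈ adjoin ℂ (Set.range v) := by simpa [v] using m z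
    by_cases e : i = z
    · exact e ▸ mz
    · simpa [v, e, xn z] using mul_mem (m i) mz
  have hv : AlgebraicIndependent ℂ v := by
    have := xx_ind.map' (f := θ) θ.injective
    rwa [show θ ∘ xx _ = v from funext hθ] at this
  have e : adjoin ℂ (Set.range (v ∘ (Subtype.val : {i // i ≠ z} → σ))) = K0 z := by
    refine le_antisymm (adjoin_le_iff.mpr ?_) (adjoin_le_iff.mpr ?_)
    · rintro _ ⟨i, rfl⟩
      simpa [v, i.2] using y_mem z i
    · rintro _ ⟨i, rfl⟩
      by_cases h : i = z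
      · simp only [h, div_self (xn _)]; exact one_mem _
      · exact subset_adjoin _ _ ⟨⟨i, h⟩, by simp [v, h]⟩
  exact ⟨(hv.comp _ Subtype.val_injective).aevalEquivField.trans (equivOfEq e)⟩

theorem abstr {K E : Type} [Field K] [Field E] [Algebra ℂ K] [Algebra ℂ E] (L : IntermediateField ℂ K) :
    (∃ (F : IntermediateField ℂ K) (u : K), (Transcendental F u ∧ F ⊔ adjoin ℂ {u} = L) ∧
      Nonempty (E ≃ₐ[ℂ] F)) ↔ Nonempty (RatFunc E ≃ₐ[ℂ] L) := by
  constructor
  · rintro ⟨F, u, ⟨h1, rfl⟩, ⟨e⟩⟩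
    let a : RatFunc E ≃ₐ[ℂ] RatFunc F := IsFractionRing.algEquivOfAlgEquiv (Polynomial.mapAlgEquiv e)
    let b : RatFunc F ≃ₐ[ℂ] (adjoin F {u}).restrictScalars ℂ :=
      (RatFunc.algEquivOfTranscendental u h1).restrictScalars ℂ
    exact ⟨(a.trans b).trans (equivOfEq (restrictScalars_adjoin_eq_sup ℂ F {u}))⟩
  · rintro ⟨e⟩
    let g : RatFunc E →ₐ[ℂ] K := L.val.comp e
    let j : E →ₐ[ℂ] K := g.comp (IsScalarTower.toAlgHom ℂ E (RatFunc E))
    let e' : E ≃ₐ[ℂ] j.fieldRange := AlgEquiv.ofInjectiveField j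
    have k : ∀ p : Polynomial E, Polynomial.aeval (g RatFunc.X) (p.map (e' : E →+* j.fieldRange)) =
        g (algebraMap _ _ p) := fun p => by
      induction p using Polynomial.induction_on with
      | C f => rw [Polynomial.map_C, Polynomial.aeval_C]; rfl
      | add p q hp hq => simp only [Polynomial.map_add, map_add, hp, hq]
      | monomial n f hp =>
        rw [pow_succ, ← mul_assoc, Polynomial.map_mul (p := Polynomial.C f * Polynomial.X ^ n), map_mul, hp,
          Polynomial.map_X, Polynomial.aeval_X, map_mul _ _ Polynomial.X, map_mul g, RatFunc.algebraMap_X]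
    refine ⟨j.fieldRange, g RatFunc.X, ⟨transcendental_iff.mpr fun p hp => ?_, le_antisymm
      (sup_le ?_ (adjoin_simple_le_iff.mpr (e _).2)) fun f hf => ?_⟩, ⟨e'⟩⟩
    · obtain ⟨q, rfl⟩ := Polynomial.map_surjective (e' : E →+* j.fieldRange) e'.surjective p
      rw [k, map_eq_zero, map_eq_zero_iff _ (IsFractionRing.injective _ _)] at hp
      rw [hp, Polynomial.map_zero]
    · rintro _ ⟨f, rfl⟩
      exact (e _).2
    · obtain ⟨r, hr⟩ := e.surjective ⟨f, hf⟩
      have : f = g r := (congrArg Subtype.val hr).symm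
      rw [← restrictScalars_adjoin_eq_sup, mem_restrictScalars, mem_adjoin_simple_iff]
      exact ⟨r.num.map _, r.denom.map _, by rw [k, k, ← map_div₀, RatFunc.num_div_denom, this]⟩

theorem Datum.ad {σ : Type} {z : σ} (d : Datum z) : Ad z d.F d.u := ⟨d.tr, d.gen⟩

theorem normal_iff {σ : Type} {z : σ} {d : Datum z} {φ : RMap σ} :
    Normal d φ ↔ ∃ a, Pull φ a ∧ Nm z d.N d.F d.u a := by
  have e : ∀ i, rm φ.P φ.Q (xx σ) i = algebraMap _ (KK σ) (φ.P i) / algebraMap _ (KK σ) φ.Q := fun i => by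
    rw [rm, aev_xx, aev_xx]
  exact ⟨fun ⟨a, h1, h2, h3, h4⟩ => ⟨a, fun i => (h1 i).trans (e i).symm, h2, h3, h4⟩,
    fun ⟨a, h1, h2, h3, h4⟩ => ⟨a, fun i => (h1 i).trans (e i), h2, h3, h4⟩⟩

theorem id_flow {σ : Type} : IsFlow (RMap.id σ) := by
  have e : ∀ p, (RMap.id σ).ev p = p := fun p => funext fun i => by simp [RMap.ev, RMap.id]
  have r : ∀ p, (RMap.id σ).Reg p := fun p => by simp [RMap.Reg, RMap.id]
  refine ⟨⟨{q | q.2 ≠ 0}, isOpen_ne_fun continuous_snd continuous_const, ⟨(0, 1), by simp⟩, fun q hq =>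
    ⟨hq, r _, r _, r _, ?_⟩⟩, Set.univ, isOpen_univ, Set.univ_nonempty, fun p _ => ?_⟩
  · rw [e, e, e, smul_smul, div_mul_cancel₀ _ hq]
  · refine tendsto_const_nhds.congr' ?_
    filter_upwards [self_mem_nhdsWithin] with c hc
    rw [e, inv_smul_smul₀ hc]

end Pool.Agent.H.MP_956d6c_ag
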